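import Pool.Agent.X9.EV.Fin

set_option autoImplicit false

/-! Pure fields and Dickson fields. -/

namespace Pool.Agent.X9.EV

open NumberField Finset Polynomial Pool.Agent.TH847.LG Pool.Agent.TH869.EVF Pool.Agent.Y159.PT

theorem exists_powfree (n : ℕ) (hn : 1 ≤ n) : ∀ k : ℕ, ∀ e : ℤ, e ≠ 0 → e.natAbs = k →
    ∃ (m : ℕ) (e' : ℤ), 1 ≤ m ∧ e = (m : ℤ) ^ n * e' ∧
      ∀ p : ℕ, p.Prime → ¬ ((p : ℤ) ^ n ∣ e') := by
  intro k
  induction k using Nat.strong_induction_on with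
  | _ k ih =>
    intro e he hk
    by_cases h : ∃ p : ℕ, p.Prime ∧ (p : ℤ) ^ n ∣ e
    · obtain ⟨p, hp, e1, he1⟩ := h
      have he10 : e1 ≠ 0 := by
        rintro rfl
        exact he (by rw [he1, mul_zero])
      have hlt : e1.natAbs < k := by
        rw [← hk, he1, Int.natAbs_mul, Int.natAbs_pow, Int.natAbs_natCast]
        have h1 : 1 < p ^ n := Nat.one_lt_pow (by omega) hp.one_lt
        have h2 : 0 < e1.natAbs := Int.natAbs_pos.mpr he10
        nlinarith
      obtain ⟨m, e', hm, h2, h3⟩ := ih _ hlt e1 he10 rfl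
      have hp1 := hp.one_lt
      refine ⟨p * m, e', Nat.succ_le_of_lt (Nat.mul_pos hp.pos hm), ?_, h3⟩
      rw [he1, h2]; push_cast; ring
    · exact ⟨1, e, le_rfl, by simp, fun p hp hd => h ⟨p, hp, hd⟩⟩

variable {K : Type} [Field K] [NumberField K]

theorem natAbs_le_discr {n : ℕ} (hn : 1 ≤ n) (hK : Module.finrank ℚ K = n) {e : ℤ} (he0 : e ≠ 0)
    (he : ∀ p : ℕ, p.Prime → ¬ ((p : ℤ) ^ n ∣ e)) {β : 𝓞 K} (hβn : β ^ n = (e : 𝓞 K)) :
    e.natAbs ≤ (discr K).natAbs ^ (n - 1) := by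
  have hβ0 : β ≠ 0 := by
    rintro h
    rw [h, zero_pow (by omega)] at hβn
    exact he0 (by exact_mod_cast hβn.symm)
  have hnorm := norm_root hK hβn
  have hRdvd : ∀ x : 𝓞 K, (rad e : ℤ) ∣ Algebra.trace ℤ (𝓞 K) (β * x) := rad_dvd_trace hβn
  have hR0 : 0 < rad e := rad_pos e
  have hE1n : 1 ≤ e.natAbs := Nat.one_le_iff_ne_zero.mpr (Int.natAbs_ne_zero.mpr he0)
  have hER : e.natAbs ≤ rad e ^ (n - 1) := natAbs_le_rad (by omega) he0 he
  have hD0 : 0 < (discr K).natAbs := Int.natAbs_pos.mpr (discr_ne_zero K)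
  have hRD : rad e ≤ (discr K).natAbs := by
    have h1 := pow_dvd_discr hK hβ0 hR0.ne' hRdvd
    rw [hnorm] at h1
    have h2 : rad e ^ n ≤ e.natAbs * (discr K).natAbs := Nat.le_of_dvd (by positivity) h1
    have h3 : rad e ^ n ≤ rad e ^ (n - 1) * (discr K).natAbs :=
      h2.trans (Nat.mul_le_mul_right _ hER)
    have h4 : rad e ^ n = rad e ^ (n - 1) * rad e := by
      rw [← pow_succ]; congr 1; omega
    rw [h4] at h3
    exact Nat.le_of_mul_le_mul_left h3 (by positivity)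
  exact hER.trans (Nat.pow_le_pow_left hRD _)

theorem main (n : ℕ) (hn : 3 ≤ n) (hodd : Odd n) (ε : ℝ) (hε : 0 < ε) :
    ∃ C : ℝ, 0 < C ∧ ∀ l : ℕ, 1 ≤ l → ∀ (K : Type) [Field K] [NumberField K],
    Module.finrank ℚ K = n → ∀ α : K, IntermediateField.adjoin ℚ {α} = ⊤ →
    ((∃ e : ℤ, α ^ n = (e : K)) →
      (Nat.card {c : ClassGroup (𝓞 K) // c ^ l = 1} : ℝ) ≤
        C * |(discr K : ℝ)| ^ (1 / 2 - 1 / (2 * (l : ℝ) * (n - 1)) + ε)) ∧
    (∀ a b : ℤ, (a = 0 ∨ ¬ 3 ∣ n) → b ^ 2 ≠ 4 * a ^ n → (dickson 1 (a : K) n).eval α = b →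
      (Nat.card {c : ClassGroup (𝓞 K) // c ^ l = 1} : ℝ) ≤
        C * Real.log (|(a : ℝ)| + |(b : ℝ)| + 2) *
          |(discr K : ℝ)| ^ (1 / 2 - 1 / (2 * (l : ℝ) * (n - 1)) + ε)) := by
  obtain ⟨C, hC0, hC⟩ := tor_PA n hn hodd (ε / 2) (by positivity)
  have hnr : (3 : ℝ) ≤ n := by exact_mod_cast hn
  have hn1 : (0 : ℝ) < (n : ℝ) - 1 := by linarith
  refine ⟨C * (1 + 2 * (n - 1) / ε) + C * (n + 6), by positivity, ?_⟩
  intro l hl K _ _ hK α hα
  have hlr : (1 : ℝ) ≤ l := by exact_mod_cast hl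
  have hDK : |(discr K : ℝ)| = ((discr K).natAbs : ℝ) := by
    rw [Nat.cast_natAbs]; push_cast; rfl
  rw [hDK]
  set D := (discr K).natAbs with hD
  have hD2 : 2 < D := by
    have := abs_discr_gt_two (K := K) (by rw [hK]; omega)
    rw [Int.abs_eq_natAbs] at this
    exact_mod_cast this
  have hDr : (3 : ℝ) ≤ D := by exact_mod_cast hD2
  have hDpos : (0 : ℝ) < D := by linarith
  set T : ℝ := (Nat.card {c : ClassGroup (𝓞 K) // c ^ l = 1} : ℝ) with hT
  set θ : ℝ := 1 / 2 - 1 / (2 * (l : ℝ) * (n - 1)) with hθ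
  refine ⟨?_, ?_⟩
  · rintro ⟨e0, he0⟩
    have hα0 : α ≠ 0 := by
      rintro rfl
      have h1 : IntermediateField.adjoin ℚ {(0 : K)} = ⊥ := by simp
      rw [h1] at hα
      have h2 : Module.finrank ℚ K = 1 := by
        have h3 := IntermediateField.finrank_top' (F := ℚ) (E := K)
        rw [← hα, IntermediateField.finrank_bot] at h3
        exact h3.symm
      omega
    have he00 : e0 ≠ 0 := by
      rintro rfl
      rw [Int.cast_zero] at he0
      exact hα0 (pow_eq_zero_iff (by omega) |>.mp he0)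
    obtain ⟨m, e, hm, hme, hfree⟩ := exists_powfree n (by omega) _ e0 he00 rfl
    have hmK : (m : K) ≠ 0 := by exact_mod_cast (by omega : m ≠ 0)
    have hene : e ≠ 0 := by
      rintro rfl
      exact he00 (by rw [hme, mul_zero])
    set α' : K := α / m with hα'
    have hα'n : α' ^ n = (e : K) := by
      rw [hα', div_pow, he0, hme]
      push_cast
      field_simp
    have hα'top : IntermediateField.adjoin ℚ {α'} = ⊤ := by
      rw [← top_le_iff, ← hα, IntermediateField.adjoin_simple_le_iff]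
      have h1 : α = α' * (algebraMap ℚ K (m : ℚ)) := by
        rw [hα', map_natCast, div_mul_cancel₀ _ hmK]
      rw [h1]
      exact mul_mem (IntermediateField.mem_adjoin_simple_self ℚ α')
        (IntermediateField.algebraMap_mem _ _)
    have hint : IsIntegral ℤ α' := by
      refine IsIntegral.of_pow (show 0 < n by omega) ?_
      rw [hα'n]
      exact isIntegral_algebraMap
    have hβn : (⟨α', hint⟩ : 𝓞 K) ^ n = (e : 𝓞 K) := by
      apply RingOfIntegers.ext
      exact hα'n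
    have hle := natAbs_le_discr (by omega) hK hene hfree hβn
    have h1 := hC l hl K hK e.natAbs (Int.natAbs_ne_zero.mpr hene) (by
      intro p hpp hpc hpn hpM
      refine dickson_norm (n := n) (a := 0) (b := e) hn (Or.inl rfl) hK α' hα'top ?_ hpp hpc hpn ?_
      · have h1 := dickson_eval α' (0 : K) n
        rw [mul_zero, add_zero, zero_pow (by omega), add_zero] at h1
        rw [Int.cast_zero, h1, hα'n]
      · simpa [Mab] using hpM)
    rw [← hT, ← hD] at h1
    have hE0 : (0 : ℝ) < e.natAbs := by exact_mod_cast Int.natAbs_pos.mpr hene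
    have h2 : Real.log (e.natAbs : ℝ) ≤ (n - 1) * Real.log D := by
      have h3 : (e.natAbs : ℝ) ≤ (D : ℝ) ^ (n - 1) := by exact_mod_cast hle
      have h4 := Real.log_le_log hE0 h3
      rw [Real.log_pow, Nat.cast_sub (by omega)] at h4
      push_cast at h4
      exact h4
    have hlogD : Real.log D ≤ (D : ℝ) ^ (ε / 2) / (ε / 2) :=
      Real.log_le_rpow_div hDpos.le (by positivity)
    have hDε : 1 ≤ (D : ℝ) ^ (ε / 2) := Real.one_le_rpow (by linarith) (by positivity)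
    have h5 : 1 + Real.log (e.natAbs : ℝ) ≤ (1 + 2 * (n - 1) / ε) * (D : ℝ) ^ (ε / 2) := by
      calc 1 + Real.log (e.natAbs : ℝ) ≤ (D : ℝ) ^ (ε / 2) + (n - 1) * ((D : ℝ) ^ (ε / 2) / (ε / 2)) := by
            have : (n - 1) * Real.log D ≤ (n - 1) * ((D : ℝ) ^ (ε / 2) / (ε / 2)) := by gcongr
            linarith
        _ = _ := by field_simp
    have hDp : 0 < (D : ℝ) ^ (θ + ε / 2) := Real.rpow_pos_of_pos hDpos _
    calc T ≤ C * (1 + Real.log (e.natAbs : ℝ)) * (D : ℝ) ^ (θ + ε / 2) := h1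
      _ ≤ C * ((1 + 2 * (n - 1) / ε) * (D : ℝ) ^ (ε / 2)) * (D : ℝ) ^ (θ + ε / 2) := by gcongr
      _ = C * (1 + 2 * (n - 1) / ε) * ((D : ℝ) ^ (ε / 2) * (D : ℝ) ^ (θ + ε / 2)) := by ring
      _ = C * (1 + 2 * (n - 1) / ε) * (D : ℝ) ^ (θ + ε) := by
          rw [← Real.rpow_add hDpos]
          congr 2
          ring
      _ ≤ _ := by
          have h6 : 0 < (D : ℝ) ^ (θ + ε) := Real.rpow_pos_of_pos hDpos _
          have h7 : 0 ≤ C * (n + 6) * (D : ℝ) ^ (θ + ε) := by positivity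
          rw [add_mul]
          linarith
  · intro a b h3 hab h0
    set M := (Mab n a b).natAbs with hM
    have hM0 : M ≠ 0 := Int.natAbs_ne_zero.mpr (Mab_ne n (by omega) a b hab)
    have h1 := hC l hl K hK M hM0 (by
      intro p hpp hpc hpn hpM
      exact dickson_norm hn h3 hK α hα h0 hpp hpc hpn hpM)
    rw [← hT, ← hD] at h1
    set L : ℝ := Real.log (|(a : ℝ)| + |(b : ℝ)| + 2) with hL
    have hS2 : (2 : ℝ) ≤ |(a : ℝ)| + |(b : ℝ)| + 2 := by
      have := abs_nonneg (a : ℝ); have := abs_nonneg (b : ℝ); linarith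
    have hL2 : 1 ≤ 2 * L := by
      have h1 : Real.log 2 ≤ L := Real.log_le_log (by norm_num) hS2
      have := Real.log_two_gt_d9
      linarith
    have hlogM : Real.log (M : ℝ) ≤ (n + 4) * L := by
      have hMpos : (0 : ℝ) < M := by exact_mod_cast Nat.pos_of_ne_zero hM0
      have h1 : (M : ℝ) ≤ (|(a : ℝ)| + |(b : ℝ)| + 2) ^ (n + 4) := by
        have h2 := Mab_le n (by omega) a b
        rw [hM, Nat.cast_natAbs]
        push_cast
        exact h2
      have h2 := Real.log_le_log hMpos h1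
      rw [Real.log_pow] at h2
      push_cast at h2
      exact h2
    have h5 : 1 + Real.log (M : ℝ) ≤ (n + 6) * L := by linarith
    have hDp : 0 < (D : ℝ) ^ (θ + ε / 2) := Real.rpow_pos_of_pos hDpos _
    have hL0 : 0 < L := by linarith
    have hDle : (D : ℝ) ^ (θ + ε / 2) ≤ (D : ℝ) ^ (θ + ε) :=
      Real.rpow_le_rpow_of_exponent_le (by linarith) (by linarith)
    calc T ≤ C * (1 + Real.log (M : ℝ)) * (D : ℝ) ^ (θ + ε / 2) := h1
      _ ≤ C * ((n + 6) * L) * (D : ℝ) ^ (θ + ε) := by gcongr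
      _ ≤ _ := by
          have h6 : 0 < (D : ℝ) ^ (θ + ε) := Real.rpow_pos_of_pos hDpos _
          have h7 : 0 ≤ C * (1 + 2 * (n - 1) / ε) * L * (D : ℝ) ^ (θ + ε) := by positivity
          have h8 : (C * (1 + 2 * (n - 1) / ε) + C * (n + 6)) * L * (D : ℝ) ^ (θ + ε) =
              C * (1 + 2 * (n - 1) / ε) * L * (D : ℝ) ^ (θ + ε) +
              C * ((n + 6) * L) * (D : ℝ) ^ (θ + ε) := by ring
          rw [h8]
          linarith

end Pool.Agent.X9.EV
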