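import Pool.Agent.X9.EV.Fam
import Pool.Agent.X9.EV.Main
import Mathlib.NumberTheory.LegendreSymbol.JacobiSymbol

set_option autoImplicit false

/-! Families of pure fields of even degree. -/

namespace Pool.Agent.X9.EV

open NumberField Finset Polynomial Pool.Agent.TH847.LG Pool.Agent.TH869.EVF

section modp

variable {p : ℕ} [hpf : Fact p.Prime]

theorem sq_c {c : ℕ} (hc : 0 < c) (h : 4 * c ∣ p + 1) : IsSquare ((c : ℕ) : ZMod p) := by
  obtain ⟨t, ht⟩ := h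
  have hp := hpf.out
  have ht0 : 0 < t := by
    rcases Nat.eq_zero_or_pos t with h | h
    · rw [h, mul_zero] at ht; omega
    · exact h
  have hle : 4 * c ≤ p + 1 := by
    rw [ht]; exact Nat.le_mul_of_pos_right _ ht0
  have hodd : Odd p := by
    rw [Nat.odd_iff]
    have h1 : p + 1 = 2 * (2 * c * t) := by rw [ht]; ring
    omega
  have hmod : p % (4 * c) = 4 * c - 1 := by
    obtain ⟨s, rfl⟩ : ∃ s, t = s + 1 := ⟨t - 1, by omega⟩
    have h1 : p = (4 * c - 1) + 4 * c * s := by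
      have : 4 * c * (s + 1) = 4 * c * s + 4 * c := by ring
      omega
    rw [h1, Nat.add_mul_mod_self_left, Nat.mod_eq_of_lt (by omega)]
  have hcp : ((c : ℤ) : ZMod p) ≠ 0 := by
    intro h0
    rw [ZMod.intCast_zmod_eq_zero_iff_dvd] at h0
    have h1 : p ∣ c := by exact_mod_cast h0
    have := Nat.le_of_dvd hc h1
    omega
  have hJ : jacobiSym (c : ℤ) p = 1 := by
    rw [jacobiSym.mod_right _ hodd, Int.natAbs_natCast, hmod]
    have hodd' : Odd (4 * c - 1) := by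
      rw [Nat.odd_iff]; omega
    have hg : Int.gcd 2 ((4 * c - 1 : ℕ) : ℤ) = 1 := by
      rw [show (2 : ℤ) = ((2 : ℕ) : ℤ) by norm_num, Int.gcd_natCast_natCast]
      exact (Nat.coprime_two_left).mpr hodd'
    have h4 : jacobiSym (2 ^ 2) (4 * c - 1) = 1 := jacobiSym.sq_one' hg
    have h5 : jacobiSym (2 ^ 2 * c) (4 * c - 1) = 1 := by
      rw [jacobiSym.mod_left]
      have h6 : (2 ^ 2 * (c : ℤ)) % ((4 * c - 1 : ℕ) : ℤ) = 1 := by
        have h7 : (2 ^ 2 * (c : ℤ)) = 1 + ((4 * c - 1 : ℕ) : ℤ) * 1 := by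
          rw [Nat.cast_sub (by omega)]
          push_cast
          ring
        rw [h7, Int.add_mul_emod_self_left, Int.emod_eq_of_lt (by norm_num)]
        have : 1 < 4 * c - 1 := by omega
        exact_mod_cast this
      rw [h6, jacobiSym.one_left]
    rw [jacobiSym.mul_left, h4, one_mul] at h5
    exact h5
  have h1 := jacobiSym.legendreSym.to_jacobiSym p (c : ℤ)
  rw [hJ] at h1
  have h2 := (legendreSym.eq_one_iff p hcp).mp h1
  exact_mod_cast h2

theorem mod_four {c : ℕ} (h : 4 * c ∣ p + 1) : p % 4 = 3 := by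
  obtain ⟨t, ht⟩ := h
  have h1 : p + 1 = 4 * (c * t) := by rw [ht]; ring
  omega

theorem root_even {c n : ℕ} (h : 8 * c * n ∣ p + 1) {e : ZMod p} (he : e ≠ 0) (hsq : IsSquare e) :
    ∃ r : ZMod p, r ^ n = e := by
  obtain ⟨t, ht⟩ := h
  refine ⟨e ^ (4 * c * t), ?_⟩
  have h1 : p + 1 = 2 * (4 * c * t * n) := by rw [ht]; ring
  have hw : 4 * c * t * n = p / 2 + 1 := by omega
  rw [← pow_mul, hw, pow_succ, (ZMod.euler_criterion p he).mp hsq, one_mul]

theorem exists_good {k : ℕ} (e : Fin k → ℤ) (c : ℕ) (z : ℤ)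
    (hz : z * z = (-1) ^ (k + 1) * c * ∏ i, e i) (hp4 : p % 4 = 3)
    (hc0 : ((c : ℕ) : ZMod p) ≠ 0) (hc : IsSquare ((c : ℕ) : ZMod p)) :
    ∃ i, IsSquare ((e i : ℤ) : ZMod p) := by
  by_contra hcon
  push Not at hcon
  have hp2 : ringChar (ZMod p) ≠ 2 := by
    rw [ZMod.ringChar_zmod_n]
    omega
  have h1 : ∀ i, quadraticChar (ZMod p) ((e i : ℤ) : ZMod p) = -1 := fun i =>
    quadraticChar_neg_one_iff_not_isSquare.mpr (hcon i)
  have h2 : quadraticChar (ZMod p) (-1) = -1 := by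
    rw [quadraticChar_neg_one_iff_not_isSquare, ZMod.exists_sq_eq_neg_one_iff]
    simpa using hp4
  have h3 : quadraticChar (ZMod p) ((c : ℕ) : ZMod p) = 1 :=
    (quadraticChar_one_iff_isSquare hc0).mpr hc
  have h4 : ((z : ℤ) : ZMod p) * ((z : ℤ) : ZMod p) =
      (-1) ^ (k + 1) * ((c : ℕ) : ZMod p) * ∏ i, ((e i : ℤ) : ZMod p) := by
    have := congrArg (fun x : ℤ => (x : ZMod p)) hz
    push_cast at this
    exact this
  have h5 := congrArg (quadraticChar (ZMod p)) h4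
  rw [map_mul, map_mul, map_mul, map_pow, h2, h3, map_prod] at h5
  simp only [h1] at h5
  rw [Finset.prod_const, Finset.card_univ, Fintype.card_fin, mul_one, ← pow_add] at h5
  have h6 : ((-1 : ℤ)) ^ (k + 1 + k) = -1 := by
    have : Odd (k + 1 + k) := ⟨k, by ring⟩
    exact this.neg_one_pow
  rw [h6] at h5
  have h7 := mul_self_nonneg (quadraticChar (ZMod p) ((z : ℤ) : ZMod p))
  rw [h5] at h7
  norm_num at h7

end modp

/-- the prime ideals -/
theorem even_norm {c n : ℕ} (hn : 3 ≤ n) {K : Type} [Field K] [NumberField K]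
    (hK : Module.finrank ℚ K = n) (α : K) (hα : IntermediateField.adjoin ℚ {α} = ⊤) (e : ℤ)
    (he : α ^ n = (e : K)) {p : ℕ} (hp : p.Prime) (h : 8 * c * n ∣ p + 1)
    (hpe : ((e : ℤ) : ZMod p) ≠ 0) (hsq : IsSquare ((e : ℤ) : ZMod p)) :
    ∃ P : Ideal (𝓞 K), Ideal.absNorm P = p := by
  have : Fact p.Prime := ⟨hp⟩
  obtain ⟨r, hr⟩ := root_even h hpe hsq
  have hr0 : r ≠ 0 := by
    rintro rfl
    rw [zero_pow (by omega)] at hr
    exact hpe hr.symm
  have hpn : ¬ p ∣ n := by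
    intro h1
    have h2 : p ∣ p + 1 := (h1.mul_left (8 * c)).trans h
    have h3 : p ∣ 1 := (Nat.dvd_add_right (dvd_refl p)).mp h2
    exact hp.one_lt.ne' (Nat.dvd_one.mp h3)
  refine norm_of_root (X ^ n - C e) (monic_X_pow_sub_C e (by omega)) ?_ α hα ?_ p hp r ?_ ?_
  · rw [natDegree_X_pow_sub_C, hK]
  · simp [he]
  · rw [eval₂_sub, eval₂_X_pow, eval₂_C, hr]
    simp
  · have h1 : ((n : ℕ) : ZMod p) ≠ 0 := by
      rw [Ne, CharP.cast_eq_zero_iff (ZMod p) p]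
      exact hpn
    simp [derivative_X_pow, h1, hr0]

/-- reduction to power free integers -/
theorem pure_reduce {n : ℕ} (hn : 3 ≤ n) {K : Type} [Field K] [NumberField K]
    (hK : Module.finrank ℚ K = n) (α : K) (hα : IntermediateField.adjoin ℚ {α} = ⊤) (r : ℚ)
    (hr : α ^ n = algebraMap ℚ K r) :
    ∃ (e : ℤ) (q : ℚ) (β : K), e ≠ 0 ∧ (e : ℚ) = r * q ^ n ∧
      IntermediateField.adjoin ℚ {β} = ⊤ ∧ β ^ n = (e : K) ∧
      e.natAbs ≤ (discr K).natAbs ^ (n - 1) := by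
  have hα0 : α ≠ 0 := by
    rintro rfl
    have h1 : IntermediateField.adjoin ℚ {(0 : K)} = ⊥ := by simp
    rw [h1] at hα
    have h2 : Module.finrank ℚ K = 1 := by
      have h3 := IntermediateField.finrank_top' (F := ℚ) (E := K)
      rw [← hα, IntermediateField.finrank_bot] at h3
      exact h3.symm
    omega
  have hr0 : r ≠ 0 := by
    rintro rfl
    rw [map_zero] at hr
    exact hα0 (pow_eq_zero_iff (by omega) |>.mp hr)
  have hden : (r.den : ℚ) ≠ 0 := by exact_mod_cast r.den_nz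
  have h2 : (r : ℚ) * (r.den : ℚ) ^ n = ((r.num * (r.den : ℤ) ^ (n - 1) : ℤ) : ℚ) := by
    have h3 : (r.den : ℚ) ^ n = (r.den : ℚ) * (r.den : ℚ) ^ (n - 1) := by
      rw [← pow_succ']; congr 1; omega
    rw [h3, ← mul_assoc, Rat.mul_den_eq_num]
    push_cast
    ring
  obtain ⟨e0, he0⟩ : ∃ e0 : ℤ, e0 = r.num * (r.den : ℤ) ^ (n - 1) := ⟨_, rfl⟩
  rw [← he0] at h2
  have he00 : e0 ≠ 0 := by
    intro h
    rw [h, Int.cast_zero] at h2
    exact mul_ne_zero hr0 (pow_ne_zero _ hden) h2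
  obtain ⟨m, e, hm, hme, hfree⟩ := exists_powfree n (by omega) _ e0 he00 rfl
  have hmQ : (m : ℚ) ≠ 0 := by exact_mod_cast (by omega : m ≠ 0)
  have hene : e ≠ 0 := by
    rintro rfl
    exact he00 (by rw [hme, mul_zero])
  have heq : (e : ℚ) = r * ((r.den : ℚ) / m) ^ n := by
    have h3 : (e0 : ℚ) = (m : ℚ) ^ n * e := by rw [hme]; push_cast; ring
    rw [div_pow, mul_div_assoc', h2, h3]
    field_simp
  have hq0 : (r.den : ℚ) / m ≠ 0 := div_ne_zero hden hmQ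
  obtain ⟨q, hq⟩ : ∃ q : ℚ, q = (r.den : ℚ) / m := ⟨_, rfl⟩
  rw [← hq] at heq hq0
  have hqK : algebraMap ℚ K q ≠ 0 := (_root_.map_ne_zero _).mpr hq0
  have hβn : (α * algebraMap ℚ K q) ^ n = (e : K) := by
    rw [mul_pow, hr, ← map_pow, ← map_mul, ← heq, map_intCast]
  have htop : IntermediateField.adjoin ℚ {α * algebraMap ℚ K q} = ⊤ := by
    rw [← top_le_iff, ← hα, IntermediateField.adjoin_simple_le_iff]
    have h1 : α = (α * algebraMap ℚ K q) * (algebraMap ℚ K (q⁻¹)) := by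
      rw [map_inv₀, mul_assoc, mul_inv_cancel₀ hqK, mul_one]
    rw [h1]
    refine mul_mem ?_ (IntermediateField.algebraMap_mem _ _)
    rw [← h1]
    exact IntermediateField.mem_adjoin_simple_self ℚ _
  have hint : IsIntegral ℤ (α * algebraMap ℚ K q) := by
    refine IsIntegral.of_pow (show 0 < n by omega) ?_
    rw [hβn]
    exact isIntegral_algebraMap
  have hβn' : (⟨α * algebraMap ℚ K q, hint⟩ : 𝓞 K) ^ n = (e : 𝓞 K) := by
    apply RingOfIntegers.ext
    exact hβn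
  exact ⟨e, q, _, hene, heq, htop, hβn, natAbs_le_discr (by omega) hK hene hfree hβn'⟩

theorem even_main (n : ℕ) (hn : 3 ≤ n) (heven : Even n) (k : ℕ) (hk : 0 < k) (c : ℕ) (hc : 0 < c)
    (ε : ℝ) (hε : 0 < ε) :
    ∃ C : ℝ, 0 < C ∧ ∀ l : ℕ, 1 ≤ l → ∀ (K : Fin k → Type) [∀ i, Field (K i)]
    [∀ i, NumberField (K i)], (∀ i, Module.finrank ℚ (K i) = n) → ∀ α : ∀ i, K i,
    (∀ i, IntermediateField.adjoin ℚ {α i} = ⊤) → ∀ r : Fin k → ℚ,
    (∀ i, α i ^ n = algebraMap ℚ (K i) (r i)) → IsSquare ((-1) ^ (k + 1) * (c : ℚ) * ∏ i, r i) →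
    ∀ j : Fin k, (∀ i, (discr (K j)).natAbs ≤ (discr (K i)).natAbs) →
    ∏ i, (Nat.card {c : ClassGroup (𝓞 (K i)) // c ^ l = 1} : ℝ) ≤
      C * (∏ i, ((discr (K i)).natAbs : ℝ)) ^ (1 / 2 + ε) *
        ((discr (K j)).natAbs : ℝ) ^ (-(1 / (2 * (l : ℝ) * (n - 1)))) := by
  have hm : 0 < 8 * c * n := by positivity
  have hu : (8 * c * n - 1).Coprime (8 * c * n) := by
    obtain ⟨s, hs⟩ : ∃ s, 8 * c * n = s + 1 := ⟨8 * c * n - 1, by omega⟩
    rw [hs, Nat.add_sub_cancel]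
    exact Nat.coprime_self_add_right.mpr (Nat.coprime_one_right _)
  obtain ⟨C, hC0, hC⟩ := tor_fam n hn (8 * c * n) (8 * c * n - 1) hm hu k hk (ε / 2) (by positivity)
  have hnr : (3 : ℝ) ≤ n := by exact_mod_cast hn
  refine ⟨C * (1 + (n - 1) / (ε / 2)), by
    have : 0 < (n : ℝ) - 1 := by linarith
    positivity, ?_⟩
  intro l hl K _ _ hK α hα r hr hsq j hj
  choose e q β he0 heq hβtop hβn hele using fun i => pure_reduce hn (hK i) (α i) (hα i) (r i) (hr i)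
  -- the product condition for integers
  have hsqe : IsSquare (((-1) ^ (k + 1) * (c : ℤ) * ∏ i, e i : ℤ) : ℚ) := by
    obtain ⟨n', hn'⟩ := heven
    have h1 : (((-1) ^ (k + 1) * (c : ℤ) * ∏ i, e i : ℤ) : ℚ) =
        ((-1) ^ (k + 1) * (c : ℚ) * ∏ i, r i) * ((∏ i, q i) ^ n' * (∏ i, q i) ^ n') := by
      push_cast
      simp only [heq]
      rw [Finset.prod_mul_distrib, Finset.prod_pow, ← pow_add, ← hn']
      ring
    rw [h1]
    exact hsq.mul (IsSquare.mul_self _)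
  obtain ⟨z, hz⟩ := Rat.isSquare_intCast_iff.mp hsqe
  obtain ⟨M, hM⟩ : ∃ M : ℕ, M = ∏ i, (e i).natAbs := ⟨_, rfl⟩
  have hM0 : M ≠ 0 := by
    rw [hM]
    exact Finset.prod_ne_zero_iff.mpr fun i _ => Int.natAbs_ne_zero.mpr (he0 i)
  have h1 := hC l hl K hK j hj M hM0 (by
    intro p hp hpc hpm hpM
    have : Fact p.Prime := ⟨hp⟩
    have hdvd : 8 * c * n ∣ p + 1 := by
      have h2 : ((p + 1 : ℕ) : ZMod (8 * c * n)) = 0 := by
        rw [Nat.cast_add, hpc, ← Nat.cast_add, Nat.sub_add_cancel (by omega), ZMod.natCast_self]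
      exact (ZMod.natCast_eq_zero_iff _ _).mp h2
    have h4c : 4 * c ∣ p + 1 := Dvd.dvd.trans ⟨2 * n, by ring⟩ hdvd
    have hpc' : ¬ p ∣ c := fun h => hpm ((h.mul_left 8).mul_right n)
    have hc0 : ((c : ℕ) : ZMod p) ≠ 0 := by
      rw [Ne, CharP.cast_eq_zero_iff (ZMod p) p]
      exact hpc'
    obtain ⟨i, hi⟩ := exists_good e c z hz.symm (mod_four h4c) hc0 (sq_c hc h4c)
    have hei : ((e i : ℤ) : ZMod p) ≠ 0 := by
      intro h
      rw [ZMod.intCast_zmod_eq_zero_iff_dvd] at h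
      exact hpM (by
        rw [hM]
        exact (Int.natCast_dvd.mp h).trans (Finset.dvd_prod_of_mem (fun i => (e i).natAbs)
          (mem_univ i)))
    exact ⟨i, even_norm hn (hK i) (β i) (hβtop i) (e i) (hβn i) hp hdvd hei hi⟩)
  refine h1.trans ?_
  have hDpos : ∀ i, (1 : ℝ) ≤ ((discr (K i)).natAbs : ℝ) := fun i => by
    have : 0 < (discr (K i)).natAbs := Int.natAbs_pos.mpr (discr_ne_zero (K i))
    exact_mod_cast this
  obtain ⟨Q, hQ⟩ : ∃ Q : ℝ, Q = ∏ i, ((discr (K i)).natAbs : ℝ) := ⟨_, rfl⟩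
  have hQ1 : 1 ≤ Q := by
    rw [hQ]
    calc (1 : ℝ) = ∏ _x : Fin k, (1 : ℝ) := by rw [Finset.prod_const_one]
      _ ≤ _ := Finset.prod_le_prod (fun _ _ => zero_le_one) fun i _ => hDpos i
  have hQ0 : 0 < Q := by linarith
  rw [← hQ]
  have hMQ : (M : ℝ) ≤ Q ^ (n - 1) := by
    rw [hM, hQ, ← Finset.prod_pow]
    push_cast
    refine Finset.prod_le_prod (fun i _ => by positivity) fun i _ => ?_
    have := hele i
    exact_mod_cast this
  have hMpos : (0 : ℝ) < M := by exact_mod_cast Nat.pos_of_ne_zero hM0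
  have hlogM : Real.log M ≤ (n - 1) * Real.log Q := by
    have h2 := Real.log_le_log hMpos hMQ
    rw [Real.log_pow, Nat.cast_sub (by omega)] at h2
    push_cast at h2
    exact h2
  have hlogQ : Real.log Q ≤ Q ^ (ε / 2) / (ε / 2) := Real.log_le_rpow_div hQ0.le (by positivity)
  have hQε : 1 ≤ Q ^ (ε / 2) := Real.one_le_rpow hQ1 (by positivity)
  have h5 : 1 + Real.log M ≤ (1 + (n - 1) / (ε / 2)) * Q ^ (ε / 2) := by
    have hn1 : 0 ≤ (n : ℝ) - 1 := by linarith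
    calc 1 + Real.log M ≤ Q ^ (ε / 2) + (n - 1) * (Q ^ (ε / 2) / (ε / 2)) := by
          have := mul_le_mul_of_nonneg_left hlogQ hn1
          linarith
      _ = _ := by ring
  have h6 : 0 ≤ ((discr (K j)).natAbs : ℝ) ^ (-(1 / (2 * (l : ℝ) * (n - 1)))) :=
    Real.rpow_nonneg (by linarith [hDpos j]) _
  have h7 : 0 < Q ^ (1 / 2 + ε / 2) := Real.rpow_pos_of_pos hQ0 _
  refine mul_le_mul_of_nonneg_right ?_ h6
  calc C * (1 + Real.log M) * Q ^ (1 / 2 + ε / 2)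
      ≤ C * ((1 + (n - 1) / (ε / 2)) * Q ^ (ε / 2)) * Q ^ (1 / 2 + ε / 2) :=
        mul_le_mul_of_nonneg_right (mul_le_mul_of_nonneg_left h5 hC0.le) h7.le
    _ = C * (1 + (n - 1) / (ε / 2)) * (Q ^ (ε / 2) * Q ^ (1 / 2 + ε / 2)) := by ring
    _ = C * (1 + (n - 1) / (ε / 2)) * Q ^ (1 / 2 + ε) := by
        rw [← Real.rpow_add hQ0]
        congr 2
        ring

end Pool.Agent.X9.EV
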