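import Pool.Agent.X9.EV.FamNum

set_option autoImplicit false

/-! Families of fields such that every prime of a residue class is the norm of an ideal in one of
them. -/

namespace Pool.Agent.X9.EV

open NumberField Finset Pool.Agent.TH847.LG Pool.Agent.TH869.EVF

theorem card_good (m u N0 : ℕ) (hN00 : N0 ≠ 0) (δ y : ℝ) (hy0 : 0 < y) :
    ((PA m u y).card : ℝ) ≤
      (((PA m u y).filter (fun p => ¬ p ∣ N0 ∧ y ^ (1 - δ) ≤ (p : ℝ))).card : ℝ) +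
      N0.primeFactors.card + y ^ (1 - δ) := by
  have h1 : PA m u y ⊆ (((PA m u y).filter (fun p => ¬ p ∣ N0 ∧ y ^ (1 - δ) ≤ (p : ℝ))) ∪
      N0.primeFactors) ∪ Finset.Icc 1 ⌊y ^ (1 - δ)⌋₊ := by
    intro p hp
    rw [mem_union, mem_union, mem_filter]
    by_cases h : p ∣ N0
    · left; right
      rw [PA, mem_filter] at hp
      exact Nat.mem_primeFactors.mpr ⟨hp.2.1, h, hN00⟩
    · by_cases h2 : y ^ (1 - δ) ≤ (p : ℝ)
      · left; left; exact ⟨hp, h, h2⟩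
      · right
        rw [PA, mem_filter, mem_Icc] at hp
        rw [mem_Icc]
        exact ⟨hp.1.1, Nat.le_floor (le_of_lt (not_le.mp h2))⟩
  have h2 := (card_le_card h1).trans (card_union_le _ _)
  have h3 := card_union_le ((PA m u y).filter (fun p => ¬ p ∣ N0 ∧ y ^ (1 - δ) ≤ (p : ℝ)))
    N0.primeFactors
  have h4 : (((Finset.Icc 1 ⌊y ^ (1 - δ)⌋₊).card : ℕ) : ℝ) ≤ y ^ (1 - δ) := by
    rw [Nat.card_Icc, Nat.add_sub_cancel]
    exact Nat.floor_le (Real.rpow_nonneg hy0.le _)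
  have h5 : ((PA m u y).card : ℝ) ≤ (((((PA m u y).filter
      (fun p => ¬ p ∣ N0 ∧ y ^ (1 - δ) ≤ (p : ℝ))) ∪ N0.primeFactors).card : ℕ) : ℝ) +
      ((Finset.Icc 1 ⌊y ^ (1 - δ)⌋₊).card : ℝ) := by exact_mod_cast h2
  have h6 : (((((PA m u y).filter (fun p => ¬ p ∣ N0 ∧ y ^ (1 - δ) ≤ (p : ℝ))) ∪
      N0.primeFactors).card : ℕ) : ℝ) ≤
      (((PA m u y).filter (fun p => ¬ p ∣ N0 ∧ y ^ (1 - δ) ≤ (p : ℝ))).card : ℝ) +
        N0.primeFactors.card := by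
    exact_mod_cast h3
  linarith

open Classical in
theorem tor_fam (n : ℕ) (hn : 3 ≤ n) (m u : ℕ) (hm : 0 < m) (hu : u.Coprime m) (k : ℕ) (hk : 0 < k)
    (ε : ℝ) (hε : 0 < ε) :
    ∃ C : ℝ, 0 < C ∧ ∀ l : ℕ, 1 ≤ l → ∀ (K : Fin k → Type) [∀ i, Field (K i)]
    [∀ i, NumberField (K i)], (∀ i, Module.finrank ℚ (K i) = n) → ∀ j : Fin k,
    (∀ i, (discr (K j)).natAbs ≤ (discr (K i)).natAbs) → ∀ M : ℕ, M ≠ 0 →
    (∀ p : ℕ, p.Prime → ((p : ℕ) : ZMod m) = ((u : ℕ) : ZMod m) → ¬ p ∣ m → ¬ p ∣ M →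
      ∃ i, ∃ P : Ideal (𝓞 (K i)), Ideal.absNorm P = p) →
    ∏ i, (Nat.card {c : ClassGroup (𝓞 (K i)) // c ^ l = 1} : ℝ) ≤
      C * (1 + Real.log M) * (∏ i, ((discr (K i)).natAbs : ℝ)) ^ (1 / 2 + ε) *
        ((discr (K j)).natAbs : ℝ) ^ (-(1 / (2 * (l : ℝ) * (n - 1)))) := by
  obtain ⟨δ, hδ⟩ : ∃ δ, δ = min ε 1 / 4 := ⟨_, rfl⟩
  have hδ0 : 0 < δ := by
    have : 0 < min ε 1 := lt_min hε one_pos
    rw [hδ]; positivity
  have hδε : 4 * δ ≤ ε := by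
    rw [hδ]; have := min_le_left ε 1; linarith
  have hδ1 : 4 * δ ≤ 1 := by
    rw [hδ]; have := min_le_right ε 1; linarith
  obtain ⟨C1, hC10, hC1⟩ := tor_ev n (by omega) δ hδ0
  obtain ⟨c, C0, hc0, hC00, hPA⟩ := PA_lower m u hm hu (δ / 2) (by positivity) (by linarith)
  have hlogm : 0 ≤ Real.log m := Real.log_natCast_nonneg m
  have hkr : (1 : ℝ) ≤ k := by exact_mod_cast hk
  obtain ⟨Y1, hY1⟩ : ∃ Y1, Y1 = max 1 ((2 / c) ^ (2 / δ)) := ⟨_, rfl⟩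
  have hY11 : 1 ≤ Y1 := by rw [hY1]; exact le_max_left _ _
  obtain ⟨C2, hC2⟩ : ∃ C2, C2 = C0 + Y1 + 2 * Real.log m + 2 + 2 / δ := ⟨_, rfl⟩
  have hC20 : 0 < C2 := by rw [hC2]; positivity
  obtain ⟨B1, hB1⟩ : ∃ B1 : ℝ, B1 = k * C1 ^ k := ⟨_, rfl⟩
  have hB10 : 0 < B1 := by rw [hB1]; positivity
  refine ⟨(301 : ℝ) ^ n * (2 / c) * (B1 * (1 + C2)), by positivity, ?_⟩
  intro l hl K _ _ hK j hj M hM0 hM
  have hD2 : ∀ i, 2 < (discr (K i)).natAbs := by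
    intro i
    have := abs_discr_gt_two (K := K i) (by rw [hK i]; omega)
    rw [Int.abs_eq_natAbs] at this
    exact_mod_cast this
  have hDr : ∀ i, (3 : ℝ) ≤ ((discr (K i)).natAbs : ℝ) := fun i => by exact_mod_cast hD2 i
  have hDpos : ∀ i, (0 : ℝ) < ((discr (K i)).natAbs : ℝ) := fun i => by linarith [hDr i]
  obtain ⟨Q, hQ⟩ : ∃ Q : ℝ, Q = ∏ i, ((discr (K i)).natAbs : ℝ) := ⟨_, rfl⟩
  have hQj : ((discr (K j)).natAbs : ℝ) ≤ Q := by
    rw [hQ, ← Finset.mul_prod_erase univ _ (mem_univ j)]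
    refine le_mul_of_one_le_right (hDpos j).le ?_
    calc (1 : ℝ) = ∏ _x ∈ univ.erase j, (1 : ℝ) := by rw [Finset.prod_const_one]
      _ ≤ _ := Finset.prod_le_prod (fun _ _ => zero_le_one) fun i _ => by linarith [hDr i]
  obtain ⟨E, hE⟩ : ∃ E : ℝ, E = l * (n - 1) * (2 + δ * (n - 2)) := ⟨_, rfl⟩
  obtain ⟨y, hy⟩ : ∃ y : ℝ, y = ((discr (K j)).natAbs : ℝ) ^ (1 / E) / 301 ^ n := ⟨_, rfl⟩
  have hy0 : 0 < y := by
    have := Real.rpow_pos_of_pos (hDpos j) (1 / E)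
    rw [hy]; positivity
  obtain ⟨N0, hN0⟩ : ∃ N0 : ℕ, N0 = m * M * ∏ i, (discr (K i)).natAbs := ⟨_, rfl⟩
  have hPD0 : (∏ i, (discr (K i)).natAbs) ≠ 0 := Finset.prod_ne_zero_iff.mpr fun i _ => by
    have := hD2 i; omega
  have hN00 : N0 ≠ 0 := by
    rw [hN0]
    exact mul_ne_zero (mul_ne_zero (by omega) hM0) hPD0
  obtain ⟨G, hG⟩ : ∃ G, G = (PA m u y).filter (fun p => ¬ p ∣ N0 ∧ y ^ (1 - δ) ≤ (p : ℝ)) :=
    ⟨_, rfl⟩
  have hGmem : ∀ p ∈ G, p.Prime ∧ ((p : ℕ) : ZMod m) = ((u : ℕ) : ZMod m) ∧ (p : ℝ) ≤ y ∧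
      ¬ p ∣ N0 ∧ y ^ (1 - δ) ≤ (p : ℝ) := by
    intro p hp
    rw [hG, mem_filter, PA, mem_filter, mem_Icc] at hp
    obtain ⟨⟨⟨-, hpy⟩, hpp, hpc⟩, hpN, hpa⟩ := hp
    exact ⟨hpp, hpc, (Nat.cast_le.mpr hpy).trans (Nat.floor_le hy0.le), hpN, hpa⟩
  have hmain : ∀ i, (Nat.card {c : ClassGroup (𝓞 (K i)) // c ^ l = 1} : ℝ) *
      (((G.filter (fun p => ∃ P : Ideal (𝓞 (K i)), Ideal.absNorm P = p)).card : ℝ) + 1) ≤
      C1 * ((discr (K i)).natAbs : ℝ) ^ (1 / 2 + δ) := by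
    intro i
    refine hC1 l hl (K i) (hK i) (y ^ (1 - δ)) y (Real.rpow_pos_of_pos hy0 _) ?_ _ ?_
    · refine (size_cond n l hn hl δ hδ0 _ (hDr j) E hE y hy).trans_le ?_
      have h1 : ((discr (K j)).natAbs : ℝ) ≤ ((discr (K i)).natAbs : ℝ) := by exact_mod_cast hj i
      have h2 : (0 : ℝ) ≤ ((y ^ (1 - δ)) ^ l) ^ ((n - 1) * (n - 2)) := by positivity
      exact mul_le_mul_of_nonneg_right h1 h2
    · intro p hp
      rw [mem_filter] at hp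
      obtain ⟨hp, hP⟩ := hp
      obtain ⟨hpp, hpc, hpy, hpN, hpa⟩ := hGmem p hp
      exact ⟨hpp, hpa, hpy, fun h => hpN (by
        rw [hN0]
        exact (h.trans (Finset.dvd_prod_of_mem (fun i => (discr (K i)).natAbs)
          (mem_univ i))).mul_left _), hP⟩
  have hGsum : (G.card : ℝ) ≤
      ∑ i, ((G.filter (fun p => ∃ P : Ideal (𝓞 (K i)), Ideal.absNorm P = p)).card : ℝ) := by
    have h1 : G ⊆ univ.biUnion
        (fun i => G.filter (fun p => ∃ P : Ideal (𝓞 (K i)), Ideal.absNorm P = p)) := by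
      intro p hp
      obtain ⟨hpp, hpc, hpy, hpN, hpa⟩ := hGmem p hp
      have hpm : ¬ p ∣ m := fun h => hpN (by rw [hN0, mul_assoc]; exact h.mul_right _)
      have hpM : ¬ p ∣ M := fun h => hpN (by rw [hN0]; exact (h.mul_left m).mul_right _)
      obtain ⟨i, hi⟩ := hM p hpp hpc hpm hpM
      rw [mem_biUnion]
      exact ⟨i, mem_univ _, mem_filter.mpr ⟨hp, hi⟩⟩
    have h2 := (card_le_card h1).trans card_biUnion_le
    exact_mod_cast h2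
  have hkey := prod_key k hk
    (fun i => (Nat.card {c : ClassGroup (𝓞 (K i)) // c ^ l = 1} : ℝ))
    (fun i => ((G.filter (fun p => ∃ P : Ideal (𝓞 (K i)), Ideal.absNorm P = p)).card : ℝ))
    (fun i => ((discr (K i)).natAbs : ℝ)) C1 (1 / 2 + δ) hC10 (fun i => by positivity)
    (fun i => by positivity) hDpos hmain G.card hGsum
  rw [← hQ, ← hB1] at hkey
  have hlogN : Real.log (N0 : ℝ) = Real.log m + Real.log M + Real.log Q := by
    have h1 : (m : ℝ) ≠ 0 := by exact_mod_cast hm.ne'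
    have h2 : (M : ℝ) ≠ 0 := by exact_mod_cast hM0
    have hQ0 : Q ≠ 0 := by
      have := hDpos j
      linarith
    rw [hN0]
    push_cast
    rw [← hQ, Real.log_mul (mul_ne_zero h1 h2) hQ0, Real.log_mul h1 h2]
  have hN := card_primeFactors_le N0 hN00
  rw [hlogN] at hN
  have hcard := card_good m u N0 hN00 δ y hy0
  rw [← hG] at hcard
  have hfin := fam_num n l hn hl δ hδ0 hδ1 c C0 C2 Y1 hc0 hC00 hY1 (Real.log m) (Real.log M) hlogm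
    (Real.log_natCast_nonneg M) hC2 G.card (PA m u y).card N0.primeFactors.card (by positivity)
    _ Q (hDr j) hQj _ B1 (Finset.prod_nonneg fun i _ => by positivity) hB10 E hE y hy hkey
    (hPA y hy0) hcard hN
  refine hfin.trans ?_
  have hQ1 : 1 ≤ Q := by linarith [hDr j]
  have h1 : Q ^ (1 / 2 + 3 * δ) ≤ Q ^ (1 / 2 + ε) :=
    Real.rpow_le_rpow_of_exponent_le hQ1 (by linarith)
  have h2 : 0 ≤ ((discr (K j)).natAbs : ℝ) ^ (-(1 / (2 * (l : ℝ) * (n - 1)))) :=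
    Real.rpow_nonneg (hDpos j).le _
  have h3 : 0 ≤ 301 ^ n * (2 / c) * (B1 * (1 + C2)) * (1 + Real.log M) := by
    have := Real.log_natCast_nonneg M
    positivity
  rw [← hQ]
  exact mul_le_mul_of_nonneg_right (mul_le_mul_of_nonneg_left h1 h3) h2

end Pool.Agent.X9.EV
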