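import Pool.Agent.X9.EV.Fin

set_option autoImplicit false

/-! Inequalities for families of fields. -/

namespace Pool.Agent.X9.EV

open Finset

theorem prod_key (k : ℕ) (hk : 0 < k) (T g d : Fin k → ℝ) (C1 s : ℝ) (hC1 : 0 < C1)
    (hT0 : ∀ i, 0 ≤ T i) (hg0 : ∀ i, 0 ≤ g i) (hd : ∀ i, 0 < d i)
    (h : ∀ i, T i * (g i + 1) ≤ C1 * d i ^ s) (G : ℝ) (hG : G ≤ ∑ i, g i) :
    (∏ i, T i) * (G + 1) ≤ k * C1 ^ k * (∏ i, d i) ^ s := by
  have hTle1 : ∀ i, T i ≤ C1 * d i ^ s := by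
    intro i
    refine (le_mul_of_one_le_right (hT0 i) ?_).trans (h i)
    have := hg0 i
    linarith
  have hprod : C1 ^ k * (∏ i, d i) ^ s = ∏ i, (C1 * d i ^ s) := by
    rw [Finset.prod_mul_distrib, Finset.prod_const, Finset.card_univ, Fintype.card_fin,
      Real.finsetProd_rpow _ _ (fun i _ => (hd i).le)]
  have hkey : ∀ i, (∏ i, T i) * (g i + 1) ≤ C1 ^ k * (∏ i, d i) ^ s := by
    intro i
    rw [hprod, ← Finset.mul_prod_erase univ T (mem_univ i),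
      ← Finset.mul_prod_erase univ (fun i => C1 * d i ^ s) (mem_univ i)]
    have e1 : T i * (∏ x ∈ univ.erase i, T x) * (g i + 1) =
        T i * (g i + 1) * (∏ x ∈ univ.erase i, T x) := by ring
    rw [e1]
    refine mul_le_mul (h i) (Finset.prod_le_prod (fun x _ => hT0 x)
      fun x _ => hTle1 x) (Finset.prod_nonneg fun x _ => hT0 x) ?_
    have := Real.rpow_pos_of_pos (hd i) s
    positivity
  have hT : 0 ≤ ∏ i, T i := Finset.prod_nonneg fun i _ => hT0 i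
  have hkr : (1 : ℝ) ≤ k := by exact_mod_cast hk
  have hG' : G + 1 ≤ ∑ i, (g i + 1) := by
    rw [Finset.sum_add_distrib, Finset.sum_const, Finset.card_univ, Fintype.card_fin, nsmul_eq_mul,
      mul_one]
    linarith
  calc (∏ i, T i) * (G + 1) ≤ (∏ i, T i) * ∑ i, (g i + 1) := mul_le_mul_of_nonneg_left hG' hT
    _ = ∑ i, (∏ i, T i) * (g i + 1) := by rw [Finset.mul_sum]
    _ ≤ ∑ _i : Fin k, C1 ^ k * (∏ i, d i) ^ s := Finset.sum_le_sum fun i _ => hkey i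
    _ = k * C1 ^ k * (∏ i, d i) ^ s := by
        rw [Finset.sum_const, Finset.card_univ, Fintype.card_fin, nsmul_eq_mul]
        ring

theorem small_term (δ : ℝ) (hδ0 : 0 < δ) (hδ1 : 4 * δ ≤ 1) (c : ℝ) (hc0 : 0 < c) (y : ℝ)
    (hy0 : 0 < y) :
    y ^ (1 - δ) ≤ c / 2 * y ^ (1 - δ / 2) + max 1 ((2 / c) ^ (2 / δ)) := by
  obtain ⟨Y1, hY1⟩ : ∃ Y1, Y1 = max 1 ((2 / c) ^ (2 / δ)) := ⟨_, rfl⟩
  rw [← hY1]
  have hY11 : 1 ≤ Y1 := by rw [hY1]; exact le_max_left _ _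
  rcases le_or_gt y Y1 with h | h
  · have h1 : y ^ (1 - δ) ≤ Y1 := by
      calc y ^ (1 - δ) ≤ Y1 ^ (1 - δ) := Real.rpow_le_rpow hy0.le h (by linarith)
        _ ≤ Y1 ^ (1 : ℝ) := Real.rpow_le_rpow_of_exponent_le hY11 (by linarith)
        _ = Y1 := Real.rpow_one _
    have : 0 ≤ c / 2 * y ^ (1 - δ / 2) := by positivity
    linarith
  · have h1 : (2 / c) ≤ y ^ (δ / 2) := by
      have h2 : (2 / c) ^ (2 / δ) ≤ y := by
        rw [hY1] at h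
        exact (le_max_right _ _).trans h.le
      calc 2 / c = ((2 / c) ^ (2 / δ)) ^ (δ / 2) := by
            rw [← Real.rpow_mul (by positivity)]
            have : 2 / δ * (δ / 2) = 1 := by field_simp
            rw [this, Real.rpow_one]
        _ ≤ y ^ (δ / 2) := Real.rpow_le_rpow (by positivity) h2 (by positivity)
    have h3 : y ^ (1 - δ / 2) = y ^ (1 - δ) * y ^ (δ / 2) := by
      rw [← Real.rpow_add hy0]; congr 1; ring
    have h4 : 0 ≤ y ^ (1 - δ) := Real.rpow_nonneg hy0.le _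
    have h5 : y ^ (1 - δ) ≤ c / 2 * y ^ (1 - δ / 2) := by
      rw [h3]
      calc y ^ (1 - δ) = c / 2 * (y ^ (1 - δ) * (2 / c)) := by field_simp
        _ ≤ _ := by gcongr
    linarith

theorem bad_term (δ : ℝ) (hδ0 : 0 < δ) (C0 Y1 lm lM Q N : ℝ)
    (hC00 : 0 ≤ C0) (hY1 : 0 ≤ Y1) (hlm : 0 ≤ lm) (hlM : 0 ≤ lM) (hQ : 3 ≤ Q)
    (hN : N ≤ 2 * (lm + lM + Real.log Q)) :
    C0 + Y1 + N ≤ (C0 + Y1 + 2 * lm + 2 + 2 / δ) * ((1 + lM) * Q ^ δ) := by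
  have hQ0 : 0 < Q := by linarith
  have hQδ : 1 ≤ Q ^ δ := Real.one_le_rpow (by linarith) hδ0.le
  have hlogQ : Real.log Q ≤ Q ^ δ / δ := Real.log_le_rpow_div hQ0.le hδ0
  obtain ⟨W, hW⟩ : ∃ W, W = (1 + lM) * Q ^ δ := ⟨_, rfl⟩
  rw [← hW]
  have hW1 : 1 ≤ W := by
    calc (1 : ℝ) = 1 * 1 := by ring
      _ ≤ (1 + lM) * Q ^ δ := by gcongr; linarith
      _ = W := hW.symm
  have hWM : lM ≤ W := by
    calc lM ≤ (1 + lM) * 1 := by linarith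
      _ ≤ (1 + lM) * Q ^ δ := by gcongr
      _ = W := hW.symm
  have hWD : Q ^ δ ≤ W := by
    rw [hW]
    exact le_mul_of_one_le_left (by linarith) (by linarith)
  have e0 : C0 ≤ C0 * W := le_mul_of_one_le_right hC00 hW1
  have e1 : Y1 ≤ Y1 * W := le_mul_of_one_le_right hY1 hW1
  have e2 : lm ≤ lm * W := le_mul_of_one_le_right hlm hW1
  have e4 : Real.log Q ≤ 1 / δ * W := by
    calc Real.log Q ≤ Q ^ δ / δ := hlogQ
      _ = 1 / δ * Q ^ δ := by ring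
      _ ≤ 1 / δ * W := by gcongr
  calc C0 + Y1 + N ≤ C0 + Y1 + 2 * (lm + lM + Real.log Q) := by linarith
    _ ≤ C0 * W + Y1 * W + 2 * (lm * W + W + 1 / δ * W) := by linarith
    _ = (C0 + Y1 + 2 * lm + 2 + 2 / δ) * W := by ring

theorem Ty_term (c C2 B1 T W Y H G : ℝ) (hc0 : 0 < c) (hC20 : 0 ≤ C2)
    (hT0 : 0 ≤ T) (hW1 : 1 ≤ W) (hG0 : 0 ≤ G) (hmain : T * (G + 1) ≤ B1 * H)
    (hlow : c / 2 * Y ≤ G + C2 * W) :
    T * Y ≤ 2 / c * (B1 * (1 + C2) * W * H) := by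
  have hTle : T ≤ B1 * H := (le_mul_of_one_le_right hT0 (by linarith)).trans hmain
  have hBH : 0 ≤ B1 * H := hT0.trans hTle
  have hW0 : 0 ≤ W := by linarith
  have h1 : T * (c / 2 * Y) ≤ B1 * (1 + C2) * W * H := by
    calc T * (c / 2 * Y) ≤ T * (G + C2 * W) := mul_le_mul_of_nonneg_left hlow hT0
      _ = T * G + T * (C2 * W) := by ring
      _ ≤ T * (G + 1) + T * (C2 * W) := by
          have : T * G ≤ T * (G + 1) := mul_le_mul_of_nonneg_left (by linarith) hT0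
          linarith
      _ ≤ B1 * H + B1 * H * (C2 * W) := by
          have : T * (C2 * W) ≤ B1 * H * (C2 * W) :=
            mul_le_mul_of_nonneg_right hTle (mul_nonneg hC20 hW0)
          linarith
      _ ≤ B1 * H * W + B1 * H * (C2 * W) := by
          have : B1 * H ≤ B1 * H * W := le_mul_of_one_le_right hBH hW1
          linarith
      _ = B1 * (1 + C2) * W * H := by ring
  calc T * Y = 2 / c * (T * (c / 2 * Y)) := by field_simp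
    _ ≤ _ := mul_le_mul_of_nonneg_left h1 (by positivity)

theorem fam_num (n l : ℕ) (hn : 3 ≤ n) (hl : 1 ≤ l) (δ : ℝ) (hδ0 : 0 < δ) (hδ1 : 4 * δ ≤ 1)
    (c C0 C2 Y1 : ℝ) (hc0 : 0 < c) (hC00 : 0 < C0) (hY1 : Y1 = max 1 ((2 / c) ^ (2 / δ)))
    (lm lM : ℝ) (hlm : 0 ≤ lm) (hlM : 0 ≤ lM)
    (hC2 : C2 = C0 + Y1 + 2 * lm + 2 + 2 / δ) (G P N : ℝ)
    (hG0 : 0 ≤ G) (D Q : ℝ) (hD : 3 ≤ D) (hDQ : D ≤ Q) (T B : ℝ) (hT0 : 0 ≤ T) (hB : 0 < B) (E : ℝ)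
    (hE : E = l * (n - 1) * (2 + δ * (n - 2))) (y : ℝ) (hy : y = D ^ (1 / E) / 301 ^ n)
    (hmain : T * (G + 1) ≤ B * Q ^ (1 / 2 + δ)) (hPA : c * y ^ (1 - δ / 2) - C0 ≤ P)
    (hcard : P ≤ G + N + y ^ (1 - δ)) (hN : N ≤ 2 * (lm + lM + Real.log Q)) :
    T ≤ 301 ^ n * (2 / c) * (B * (1 + C2)) * (1 + lM) * Q ^ (1 / 2 + 3 * δ) *
      D ^ (-(1 / (2 * (l : ℝ) * (n - 1)))) := by
  have hnr : (3 : ℝ) ≤ n := by exact_mod_cast hn
  have hlr : (1 : ℝ) ≤ l := by exact_mod_cast hl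
  have hn1 : (0 : ℝ) < (n : ℝ) - 1 := by linarith
  have hD0 : 0 < D := by linarith
  have hQ0 : 0 < Q := by linarith
  have hE0 : 0 < E := by
    have : 0 ≤ δ * ((n : ℝ) - 2) := mul_nonneg hδ0.le (by linarith)
    rw [hE]; positivity
  have hDE0 : 0 < D ^ (1 / E) := Real.rpow_pos_of_pos hD0 _
  have hy0 : 0 < y := by rw [hy]; positivity
  have hY10 : 0 ≤ Y1 := by
    rw [hY1]; exact zero_le_one.trans (le_max_left _ _)
  have hsmall := small_term δ hδ0 hδ1 c hc0 y hy0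
  rw [← hY1] at hsmall
  have hbad := bad_term δ hδ0 C0 Y1 lm lM Q N hC00.le hY10 hlm hlM (hD.trans hDQ) hN
  rw [← hC2] at hbad
  obtain ⟨W, hW⟩ : ∃ W, W = (1 + lM) * Q ^ δ := ⟨_, rfl⟩
  rw [← hW] at hbad
  have hC20 : 0 ≤ C2 := by
    rw [hC2]; positivity
  have hQδ : 1 ≤ Q ^ δ := Real.one_le_rpow (by linarith) hδ0.le
  have hW1 : 1 ≤ W := by
    calc (1 : ℝ) = 1 * 1 := by ring
      _ ≤ (1 + lM) * Q ^ δ := by gcongr; linarith
      _ = W := hW.symm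
  have hlow : c / 2 * y ^ (1 - δ / 2) ≤ G + C2 * W := by
    have h2 : c * y ^ (1 - δ / 2) = c / 2 * y ^ (1 - δ / 2) + c / 2 * y ^ (1 - δ / 2) := by ring
    linarith
  have hTy := Ty_term c C2 B T W (y ^ (1 - δ / 2)) (Q ^ (1 / 2 + δ)) G hc0 hC20 hT0 hW1 hG0 hmain hlow
  have hylow : D ^ ((1 - δ / 2) / E) ≤ 301 ^ n * y ^ (1 - δ / 2) := by
    have h1 : y ^ (1 - δ / 2) = D ^ ((1 - δ / 2) / E) / ((301 : ℝ) ^ n) ^ (1 - δ / 2) := by
      rw [hy, Real.div_rpow hDE0.le (by positivity), ← Real.rpow_mul hD0.le]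
      congr 2
      ring
    have h2 : ((301 : ℝ) ^ n) ^ (1 - δ / 2) ≤ 301 ^ n := by
      calc ((301 : ℝ) ^ n) ^ (1 - δ / 2) ≤ ((301 : ℝ) ^ n) ^ (1 : ℝ) :=
            Real.rpow_le_rpow_of_exponent_le (one_le_pow₀ (by norm_num)) (by linarith)
        _ = 301 ^ n := Real.rpow_one _
    have h3 : 0 < ((301 : ℝ) ^ n) ^ (1 - δ / 2) := Real.rpow_pos_of_pos (by positivity) _
    have h4 : 0 < D ^ ((1 - δ / 2) / E) := Real.rpow_pos_of_pos hD0 _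
    rw [h1, mul_div_assoc', le_div_iff₀ h3, mul_comm ((301 : ℝ) ^ n)]
    exact mul_le_mul_of_nonneg_left h2 h4.le
  have hexp := exp_ineq n l hn hl δ hδ0 E hE
  obtain ⟨A, hA⟩ : ∃ A, A = 301 ^ n * (2 / c) * (B * (1 + C2)) * (1 + lM) := ⟨_, rfl⟩
  have hA0 : 0 ≤ A := by rw [hA]; positivity
  have hfin : T * D ^ ((1 - δ / 2) / E) ≤ A * Q ^ (1 / 2 + 2 * δ) := by
    calc T * D ^ ((1 - δ / 2) / E) ≤ T * (301 ^ n * y ^ (1 - δ / 2)) :=
          mul_le_mul_of_nonneg_left hylow hT0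
      _ = 301 ^ n * (T * y ^ (1 - δ / 2)) := by ring
      _ ≤ 301 ^ n * (2 / c * (B * (1 + C2) * W * Q ^ (1 / 2 + δ))) :=
          mul_le_mul_of_nonneg_left hTy (by positivity)
      _ = A * (Q ^ δ * Q ^ (1 / 2 + δ)) := by rw [hW, hA]; ring
      _ = _ := by
          rw [← Real.rpow_add hQ0]
          congr 2
          ring
  have hpos : 0 < D ^ ((1 - δ / 2) / E) := Real.rpow_pos_of_pos hD0 _
  rw [← le_div_iff₀ hpos] at hfin
  rw [← hA]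
  refine hfin.trans ?_
  obtain ⟨θ, hθ⟩ : ∃ θ, θ = 1 / (2 * (l : ℝ) * (n - 1)) := ⟨_, rfl⟩
  rw [← hθ] at hexp ⊢
  have e1 : A * Q ^ (1 / 2 + 2 * δ) / D ^ ((1 - δ / 2) / E) =
      A * Q ^ (1 / 2 + 2 * δ) * D ^ (-((1 - δ / 2) / E)) := by
    rw [Real.rpow_neg hD0.le, div_eq_mul_inv]
  rw [e1]
  have hDθ : 0 < D ^ (-θ) := Real.rpow_pos_of_pos hD0 _
  have e2 : D ^ (-((1 - δ / 2) / E)) ≤ D ^ (-θ) * Q ^ δ := by
    calc D ^ (-((1 - δ / 2) / E)) ≤ D ^ (-θ + δ) :=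
          Real.rpow_le_rpow_of_exponent_le (by linarith) (by linarith)
      _ = D ^ (-θ) * D ^ δ := Real.rpow_add hD0 _ _
      _ ≤ _ := mul_le_mul_of_nonneg_left (Real.rpow_le_rpow hD0.le hDQ hδ0.le) hDθ.le
  have hQ2 : 0 < Q ^ (1 / 2 + 2 * δ) := Real.rpow_pos_of_pos hQ0 _
  calc A * Q ^ (1 / 2 + 2 * δ) * D ^ (-((1 - δ / 2) / E))
      ≤ A * Q ^ (1 / 2 + 2 * δ) * (D ^ (-θ) * Q ^ δ) :=
        mul_le_mul_of_nonneg_left e2 (mul_nonneg hA0 hQ2.le)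
    _ = A * (Q ^ (1 / 2 + 2 * δ) * Q ^ δ) * D ^ (-θ) := by ring
    _ = A * Q ^ (1 / 2 + 3 * δ) * D ^ (-θ) := by
        rw [← Real.rpow_add hQ0]
        congr 3
        ring

end Pool.Agent.X9.EV
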