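import Pool.Agent.X9.EV.Tor
import Pool.Agent.Y159.PT.Pure

set_option autoImplicit false

/-! Torsion in the class groups of Dickson fields and pure fields, with the exponent of
Ellenberg and Venkatesh. -/

namespace Pool.Agent.X9.EV

open NumberField Finset Pool.Agent.TH847.LG Pool.Agent.TH869.EVF

theorem tor_PA (n : ℕ) (hn : 3 ≤ n) (hodd : Odd n) (ε : ℝ) (hε : 0 < ε) :
    ∃ C : ℝ, 0 < C ∧ ∀ l : ℕ, 1 ≤ l → ∀ (K : Type) [Field K] [NumberField K],
    Module.finrank ℚ K = n → ∀ M : ℕ, M ≠ 0 →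
    (∀ p : ℕ, p.Prime → ((p : ℕ) : ZMod n) = ((2 : ℕ) : ZMod n) → ¬ p ∣ n → ¬ p ∣ M →
      ∃ P : Ideal (𝓞 K), Ideal.absNorm P = p) →
    (Nat.card {c : ClassGroup (𝓞 K) // c ^ l = 1} : ℝ) ≤
      C * (1 + Real.log M) *
        ((discr K).natAbs : ℝ) ^ (1 / 2 - 1 / (2 * (l : ℝ) * (n - 1)) + ε) := by
  set δ : ℝ := min ε 1 / 4 with hδ
  have hδ0 : 0 < δ := by
    have : 0 < min ε 1 := lt_min hε one_pos
    positivity
  have hδε : 4 * δ ≤ ε := by
    rw [hδ]; have := min_le_left ε 1; linarith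
  have hδ1 : 4 * δ ≤ 1 := by
    rw [hδ]; have := min_le_right ε 1; linarith
  obtain ⟨C1, hC10, hC1⟩ := tor_ev n (by omega) δ hδ0
  obtain ⟨c, C0, hc0, hC00, hPA⟩ := PA_lower n 2 (by omega)
    ((Nat.coprime_two_left).mpr hodd) (δ / 2) (by positivity) (by linarith)
  have hlogn : 0 ≤ Real.log n := Real.log_natCast_nonneg n
  have hnr : (3 : ℝ) ≤ n := by exact_mod_cast hn
  set Y1 : ℝ := max 1 ((2 / c) ^ (2 / δ)) with hY1
  have hY11 : 1 ≤ Y1 := le_max_left _ _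
  set C2 : ℝ := C0 + Y1 + 2 * Real.log n + 2 + 2 / δ with hC2
  have hC20 : 0 < C2 := by positivity
  refine ⟨(301 : ℝ) ^ n * (2 / c) * (C1 * (1 + C2)), by positivity, ?_⟩
  intro l hl K _ _ hK M hM0 hM
  have hlr : (1 : ℝ) ≤ l := by exact_mod_cast hl
  set D := (discr K).natAbs with hD
  have hD2 : 2 < D := by
    have := abs_discr_gt_two (K := K) (by rw [hK]; omega)
    rw [Int.abs_eq_natAbs] at this
    exact_mod_cast this
  have hDr : (3 : ℝ) ≤ D := by exact_mod_cast hD2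
  have hDpos : (0 : ℝ) < D := by linarith
  set T : ℝ := (Nat.card {c : ClassGroup (𝓞 K) // c ^ l = 1} : ℝ) with hT
  have hT0 : 0 ≤ T := by positivity
  have hn1 : (0 : ℝ) < (n : ℝ) - 1 := by linarith
  set E : ℝ := l * (n - 1) * (2 + δ * (n - 2)) with hE
  have hE0 : 0 < E := by
    have : 0 ≤ δ * ((n : ℝ) - 2) := mul_nonneg hδ0.le (by linarith)
    rw [hE]; positivity
  have hDE0 : 0 < (D : ℝ) ^ (1 / E) := Real.rpow_pos_of_pos hDpos _
  set y : ℝ := (D : ℝ) ^ (1 / E) / 301 ^ n with hy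
  have hy0 : 0 < y := by positivity
  set N0 : ℕ := n * M * D with hN0
  have hN00 : N0 ≠ 0 := by
    have : D ≠ 0 := by omega
    have : n ≠ 0 := by omega
    positivity
  set G := (PA n 2 y).filter (fun p => ¬ p ∣ N0 ∧ y ^ (1 - δ) ≤ (p : ℝ)) with hG
  have hmain := hC1 l hl K hK (y ^ (1 - δ)) y (Real.rpow_pos_of_pos hy0 _)
    (size_cond n l hn hl δ hδ0 D hDr E hE y hy) G (by
    intro p hp
    rw [hG, mem_filter, PA, mem_filter, mem_Icc] at hp
    obtain ⟨⟨⟨-, hpy⟩, hpp, hpc⟩, hpN, hpa⟩ := hp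
    have hpn : ¬ p ∣ n := fun h => hpN (by rw [hN0, mul_assoc]; exact h.mul_right _)
    have hpM : ¬ p ∣ M := fun h => hpN (by rw [hN0]; exact (h.mul_left n).mul_right _)
    have hpD : ¬ p ∣ D := fun h => hpN (by rw [hN0]; exact h.mul_left _)
    exact ⟨hpp, hpa, (Nat.cast_le.mpr hpy).trans (Nat.floor_le hy0.le), hpD,
      hM p hpp hpc hpn hpM⟩)
  rw [← hT, ← hD] at hmain
  -- the number of primes
  have hcard : ((PA n 2 y).card : ℝ) ≤ G.card + N0.primeFactors.card + y ^ (1 - δ) := by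
    have h1 : PA n 2 y ⊆ (G ∪ N0.primeFactors) ∪ Finset.Icc 1 ⌊y ^ (1 - δ)⌋₊ := by
      intro p hp
      rw [mem_union, mem_union, hG, mem_filter]
      by_cases h : p ∣ N0
      · left; right
        rw [PA, mem_filter] at hp
        exact Nat.mem_primeFactors.mpr ⟨hp.2.1, h, hN00⟩
      · by_cases h2 : y ^ (1 - δ) ≤ (p : ℝ)
        · left; left; exact ⟨hp, h, h2⟩
        · right
          rw [PA, mem_filter, mem_Icc] at hp
          rw [mem_Icc]
          exact ⟨hp.1.1, Nat.le_floor (le_of_lt (not_le.mp h2))⟩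
    have h2 := (card_le_card h1).trans (card_union_le _ _)
    have h3 := card_union_le G N0.primeFactors
    have h4 : (((Finset.Icc 1 ⌊y ^ (1 - δ)⌋₊).card : ℕ) : ℝ) ≤ y ^ (1 - δ) := by
      rw [Nat.card_Icc, Nat.add_sub_cancel]
      exact Nat.floor_le (Real.rpow_nonneg hy0.le _)
    have h5 : ((PA n 2 y).card : ℝ) ≤ ((G ∪ N0.primeFactors).card : ℝ) +
        ((Finset.Icc 1 ⌊y ^ (1 - δ)⌋₊).card : ℝ) := by exact_mod_cast h2
    have h6 : ((G ∪ N0.primeFactors).card : ℝ) ≤ G.card + N0.primeFactors.card := by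
      exact_mod_cast h3
    linarith
  have hsmall : y ^ (1 - δ) ≤ c / 2 * y ^ (1 - δ / 2) + Y1 := by
    rcases le_or_gt y Y1 with h | h
    · have h1 : y ^ (1 - δ) ≤ Y1 := by
        calc y ^ (1 - δ) ≤ Y1 ^ (1 - δ) := Real.rpow_le_rpow hy0.le h (by linarith)
          _ ≤ Y1 ^ (1 : ℝ) := Real.rpow_le_rpow_of_exponent_le hY11 (by linarith)
          _ = Y1 := Real.rpow_one _
      have : 0 ≤ c / 2 * y ^ (1 - δ / 2) := by positivity
      linarith
    · have h1 : (2 / c) ≤ y ^ (δ / 2) := by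
        have h2 : (2 / c) ^ (2 / δ) ≤ y := (le_max_right _ _).trans h.le
        calc 2 / c = ((2 / c) ^ (2 / δ)) ^ (δ / 2) := by
              rw [← Real.rpow_mul (by positivity)]
              have : 2 / δ * (δ / 2) = 1 := by field_simp
              rw [this, Real.rpow_one]
          _ ≤ y ^ (δ / 2) := Real.rpow_le_rpow (by positivity) h2 (by positivity)
      have h3 : y ^ (1 - δ / 2) = y ^ (1 - δ) * y ^ (δ / 2) := by
        rw [← Real.rpow_add hy0]; congr 1; ring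
      have h4 : 0 ≤ y ^ (1 - δ) := Real.rpow_nonneg hy0.le _
      have h5 : y ^ (1 - δ) ≤ c / 2 * y ^ (1 - δ / 2) := by
        rw [h3]
        calc y ^ (1 - δ) = c / 2 * (y ^ (1 - δ) * (2 / c)) := by field_simp
          _ ≤ _ := by gcongr
      linarith
  have hDδ : 1 ≤ (D : ℝ) ^ δ := Real.one_le_rpow (by linarith) hδ0.le
  have hlogD : Real.log D ≤ (D : ℝ) ^ δ / δ := Real.log_le_rpow_div hDpos.le hδ0
  have hlogD0 : 0 ≤ Real.log D := Real.log_natCast_nonneg D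
  have hlogM : 0 ≤ Real.log M := Real.log_natCast_nonneg M
  have hlogN : Real.log (N0 : ℝ) = Real.log n + Real.log M + Real.log D := by
    have h1 : (n : ℝ) ≠ 0 := by linarith
    have h2 : (M : ℝ) ≠ 0 := by exact_mod_cast hM0
    rw [hN0]
    push_cast
    rw [Real.log_mul (mul_ne_zero h1 h2) hDpos.ne', Real.log_mul h1 h2]
  set W : ℝ := (1 + Real.log M) * (D : ℝ) ^ δ with hW
  have hW1 : 1 ≤ W := by
    have h1 : (1 : ℝ) ≤ 1 + Real.log M := by linarith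
    calc (1 : ℝ) = 1 * 1 := by ring
      _ ≤ W := by rw [hW]; gcongr
  have hWM : Real.log M ≤ W := by
    calc Real.log M ≤ (1 + Real.log M) * 1 := by linarith
      _ ≤ W := by rw [hW]; gcongr
  have hWD : (D : ℝ) ^ δ ≤ W := by
    rw [hW]
    exact le_mul_of_one_le_left (by linarith) (by linarith)
  have hbad : C0 + Y1 + (N0.primeFactors.card : ℝ) ≤ C2 * W := by
    have h1 := card_primeFactors_le N0 hN00
    rw [hlogN] at h1
    have e0 : C0 ≤ C0 * W := le_mul_of_one_le_right hC00.le hW1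
    have e1 : Y1 ≤ Y1 * W := le_mul_of_one_le_right (by linarith) hW1
    have e2 : Real.log n ≤ Real.log n * W := le_mul_of_one_le_right hlogn hW1
    have e4 : Real.log D ≤ 1 / δ * W := by
      calc Real.log D ≤ (D : ℝ) ^ δ / δ := hlogD
        _ = 1 / δ * (D : ℝ) ^ δ := by ring
        _ ≤ 1 / δ * W := by gcongr
    calc C0 + Y1 + (N0.primeFactors.card : ℝ)
        ≤ C0 + Y1 + 2 * (Real.log n + Real.log M + Real.log D) := by linarith
      _ ≤ C0 * W + Y1 * W + 2 * (Real.log n * W + W + 1 / δ * W) := by linarith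
      _ = C2 * W := by rw [hC2]; ring
  have hlow : c / 2 * y ^ (1 - δ / 2) ≤ G.card + C2 * W := by
    have h1 := hPA y hy0
    have h2 : c * y ^ (1 - δ / 2) = c / 2 * y ^ (1 - δ / 2) + c / 2 * y ^ (1 - δ / 2) := by ring
    linarith
  have hTle : T ≤ C1 * (D : ℝ) ^ (1 / 2 + δ) :=
    (le_mul_of_one_le_right hT0 (by
      have : (0 : ℝ) ≤ G.card := by positivity
      linarith)).trans hmain
  have hDhalf : 0 < (D : ℝ) ^ (1 / 2 + δ) := Real.rpow_pos_of_pos hDpos _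
  have hTy : T * y ^ (1 - δ / 2) ≤ 2 / c * (C1 * (1 + C2) * W * (D : ℝ) ^ (1 / 2 + δ)) := by
    have h1 : T * (c / 2 * y ^ (1 - δ / 2)) ≤ C1 * (1 + C2) * W * (D : ℝ) ^ (1 / 2 + δ) := by
      calc T * (c / 2 * y ^ (1 - δ / 2)) ≤ T * (G.card + C2 * W) := by gcongr
        _ ≤ T * (G.card + 1) + T * (C2 * W) := by nlinarith
        _ ≤ C1 * (D : ℝ) ^ (1 / 2 + δ) + C1 * (D : ℝ) ^ (1 / 2 + δ) * (C2 * W) := by gcongr
        _ ≤ C1 * (D : ℝ) ^ (1 / 2 + δ) * W + C1 * (D : ℝ) ^ (1 / 2 + δ) * (C2 * W) := by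
            have : C1 * (D : ℝ) ^ (1 / 2 + δ) ≤ C1 * (D : ℝ) ^ (1 / 2 + δ) * W :=
              le_mul_of_one_le_right (by positivity) hW1
            linarith
        _ = C1 * (1 + C2) * W * (D : ℝ) ^ (1 / 2 + δ) := by ring
    calc T * y ^ (1 - δ / 2) = 2 / c * (T * (c / 2 * y ^ (1 - δ / 2))) := by field_simp
      _ ≤ _ := by gcongr
  have hylow : (D : ℝ) ^ ((1 - δ / 2) / E) ≤ 301 ^ n * y ^ (1 - δ / 2) := by
    have h1 : y ^ (1 - δ / 2) = (D : ℝ) ^ ((1 - δ / 2) / E) / ((301 : ℝ) ^ n) ^ (1 - δ / 2) := by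
      rw [hy, Real.div_rpow hDE0.le (by positivity), ← Real.rpow_mul hDpos.le]
      congr 2
      ring
    have h2 : ((301 : ℝ) ^ n) ^ (1 - δ / 2) ≤ 301 ^ n := by
      calc ((301 : ℝ) ^ n) ^ (1 - δ / 2) ≤ ((301 : ℝ) ^ n) ^ (1 : ℝ) :=
            Real.rpow_le_rpow_of_exponent_le (one_le_pow₀ (by norm_num)) (by linarith)
        _ = 301 ^ n := Real.rpow_one _
    have h3 : 0 < ((301 : ℝ) ^ n) ^ (1 - δ / 2) := Real.rpow_pos_of_pos (by positivity) _
    have h4 : 0 < (D : ℝ) ^ ((1 - δ / 2) / E) := Real.rpow_pos_of_pos hDpos _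
    rw [h1, mul_div_assoc', le_div_iff₀ h3, mul_comm ((301 : ℝ) ^ n)]
    gcongr
  have hexp := exp_ineq n l hn hl δ hδ0 E hE
  have hfin : T * (D : ℝ) ^ ((1 - δ / 2) / E) ≤
      301 ^ n * (2 / c) * (C1 * (1 + C2)) * (1 + Real.log M) * (D : ℝ) ^ (1 / 2 + 2 * δ) := by
    calc T * (D : ℝ) ^ ((1 - δ / 2) / E) ≤ T * (301 ^ n * y ^ (1 - δ / 2)) := by gcongr
      _ = 301 ^ n * (T * y ^ (1 - δ / 2)) := by ring
      _ ≤ 301 ^ n * (2 / c * (C1 * (1 + C2) * W * (D : ℝ) ^ (1 / 2 + δ))) := by gcongr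
      _ = 301 ^ n * (2 / c) * (C1 * (1 + C2)) * (1 + Real.log M) *
            ((D : ℝ) ^ δ * (D : ℝ) ^ (1 / 2 + δ)) := by rw [hW]; ring
      _ = _ := by
          rw [← Real.rpow_add hDpos]
          congr 2
          ring
  have hpos : 0 < (D : ℝ) ^ ((1 - δ / 2) / E) := Real.rpow_pos_of_pos hDpos _
  have hlogM1 : 0 < 1 + Real.log M := by linarith
  rw [← le_div_iff₀ hpos] at hfin
  refine hfin.trans ?_
  rw [mul_div_assoc, ← Real.rpow_sub hDpos]
  have hee : (1 / 2 + 2 * δ - (1 - δ / 2) / E : ℝ) ≤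
      1 / 2 - 1 / (2 * (l : ℝ) * (n - 1)) + ε := by linarith
  have := Real.rpow_le_rpow_of_exponent_le (show (1 : ℝ) ≤ D by linarith) hee
  gcongr

end Pool.Agent.X9.EV
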