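import Pool.Agent.TH847.LG.Disc

set_option autoImplicit false

/-! The discriminant, an element of a number field and an ideal containing its homogeneous powers. -/

namespace Pool.Agent.X9.EV

open NumberField Finset IntermediateField
open scoped Classical nonZeroDivisors

/-- the determinant of elements of an ideal is divisible by the norm of the ideal -/
theorem absNorm_dvd_det {S : Type} [CommRing S] [IsDedekindDomain S]
    [Module.Free ℤ S] [Module.Finite ℤ S] {d : ℕ} (b : Module.Basis (Fin d) ℤ S) (I : Ideal S)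
    (hI : I ≠ ⊥) (x : Fin d → S) (hx : ∀ j, x j ∈ I) :
    ((Ideal.absNorm I : ℕ) : ℤ) ∣ Matrix.det (fun i j => b.repr (x j) i : Matrix (Fin d) (Fin d) ℤ) := by
  let bI : Module.Basis (Fin d) ℤ I := Ideal.selfBasis b I hI
  have h1 := Ideal.natAbs_det_basis_change b I bI
  let v : Fin d → S := fun k => (bI k : S)
  let A : Matrix (Fin d) (Fin d) ℤ := fun k j => bI.repr ⟨x j, hx j⟩ k
  have hxs : ∀ j, x j = ∑ k, A k j • v k := by
    intro j
    have h2 := bI.sum_repr ⟨x j, hx j⟩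
    have h3 := congrArg (fun y : I => (y : S)) h2
    simp only at h3
    refine h3.symm.trans ?_
    rw [AddSubmonoidClass.coe_finset_sum]
    rfl
  have h4 : (fun i j => b.repr (x j) i : Matrix (Fin d) (Fin d) ℤ) = b.toMatrix v * A := by
    ext i j
    rw [Matrix.mul_apply]
    rw [hxs j, map_sum, Finsupp.finsetSum_apply]
    refine Finset.sum_congr rfl fun k _ => ?_
    rw [map_smul, Finsupp.smul_apply, Module.Basis.toMatrix_apply, smul_eq_mul, mul_comm]
  rw [h4, Matrix.det_mul]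
  have h5 : b.det v = (b.toMatrix v).det := rfl
  have h6 : ((Ideal.absNorm I : ℕ) : ℤ) ∣ (b.toMatrix v).det := by
    rw [← h5, ← h1]
    have h7 : (⇑b.det (Subtype.val ∘ ⇑bI)) = b.det v := rfl
    exact Int.natAbs_dvd.mpr (dvd_refl _)
  exact Dvd.dvd.mul_right h6 _

variable {K : Type} [Field K] [NumberField K]

/-- Let `z` generate `K`, with conjugates of absolute value at most `B`. If
`z ^ j * m ^ (n - 1 - j) ∈ I` for `j < n`, then
`N(I) ^ 2 * |D| ≤ m ^ (n (n - 1)) * (2 * B) ^ (n (n - 1))`. -/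
theorem disc_ideal {n : ℕ} (hn : Module.finrank ℚ K = n) (z : 𝓞 K)
    (hz : ℚ⟮(z : K)⟯ = ⊤) {B : ℝ} (hw : ∀ w : InfinitePlace K, w (z : K) ≤ B)
    (I : Ideal (𝓞 K)) (hI : I ≠ ⊥) (m : ℕ) (hm0 : 1 ≤ m)
    (hx : ∀ j : ℕ, j < n → z ^ j * (m : 𝓞 K) ^ (n - 1 - j) ∈ I) :
    (Ideal.absNorm I : ℝ) ^ 2 * |(discr K : ℝ)| ≤
      (m : ℝ) ^ (n * (n - 1)) * (2 * B) ^ (n * (n - 1)) := by
  have hint : IsIntegral ℚ (z : K) := Algebra.IsIntegral.isIntegral _
  have htop : Algebra.adjoin ℚ {(z : K)} = ⊤ := by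
    rw [← IntermediateField.adjoin_simple_toSubalgebra_of_isAlgebraic hint.isAlgebraic, hz]
    rfl
  let pb : PowerBasis ℚ K := PowerBasis.ofAdjoinEqTop' hint htop
  have hgen : pb.gen = z := PowerBasis.ofAdjoinEqTop'_gen hint htop
  have hdim : pb.dim = n := by rw [← pb.finrank, hn]
  -- the integer matrix
  have hc : Fintype.card (Module.Free.ChooseBasisIndex ℤ (𝓞 K)) = pb.dim := by
    rw [← Module.finrank_eq_card_basis (RingOfIntegers.basis K), RingOfIntegers.rank, pb.finrank]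
  let e : Module.Free.ChooseBasisIndex ℤ (𝓞 K) ≃ Fin pb.dim := Fintype.equivFinOfCardEq hc
  let b : Module.Basis (Fin pb.dim) ℚ K := (integralBasis K).reindex e
  let M : Matrix (Fin pb.dim) (Fin pb.dim) ℤ := fun i j =>
    (RingOfIntegers.basis K).repr (z ^ (j : ℕ)) (e.symm i)
  have hM : b.toMatrix pb.basis = M.map (Int.castRingHom ℚ) := by
    ext i j
    rw [Module.Basis.toMatrix_apply, pb.coe_basis, hgen, Matrix.map_apply]
    change ((integralBasis K).reindex e).repr ((z : K) ^ (j : ℕ)) i = _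
    rw [Module.Basis.repr_reindex_apply]
    have h1 := integralBasis_repr_apply K (z ^ (j : ℕ)) (e.symm i)
    rw [map_pow] at h1
    exact h1
  have h1 : Algebra.discr ℚ pb.basis = (M.det : ℚ) ^ 2 * (discr K : ℚ) := by
    have h2 := Algebra.discr_of_matrix_vecMul (A := ℚ) (b : Fin pb.dim → K)
      (b.toMatrix pb.basis)
    rw [Module.Basis.toMatrix_map_vecMul] at h2
    rw [h2, hM]
    have h3 : (M.map (Int.castRingHom ℚ)).det = (M.det : ℚ) := by
      have := (RingHom.map_det (Int.castRingHom ℚ) M)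
      rw [RingHom.mapMatrix_apply] at this
      rw [← this]
      rfl
    have h4 : Algebra.discr ℚ (b : Fin pb.dim → K) = (discr K : ℚ) := by
      rw [coe_discr]
      have := Algebra.discr_reindex ℚ (integralBasis K) e
      rw [← this]
      congr 1
      exact Module.Basis.coe_reindex _ _
    rw [h3, h4]
  have hne : M.det ≠ 0 := by
    intro h0
    have h2 := Algebra.discr_not_zero_of_basis ℚ pb.basis
    rw [h1, h0] at h2
    simp at h2
  -- divisibility by the norm of the ideal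
  have hdiv : ((Ideal.absNorm I : ℕ) : ℤ) ∣
      M.det * ∏ j : Fin pb.dim, (m : ℤ) ^ (n - 1 - (j : ℕ)) := by
    have h2 := absNorm_dvd_det ((RingOfIntegers.basis K).reindex e) I hI
      (fun j : Fin pb.dim => z ^ (j : ℕ) * (m : 𝓞 K) ^ (n - 1 - (j : ℕ)))
      (fun j => hx j (by rw [← hdim]; exact j.2))
    have h3 : (fun i j => ((RingOfIntegers.basis K).reindex e).repr
        (z ^ (j : ℕ) * (m : 𝓞 K) ^ (n - 1 - (j : ℕ))) i : Matrix (Fin pb.dim) (Fin pb.dim) ℤ) =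
        M * Matrix.diagonal (fun j : Fin pb.dim => (m : ℤ) ^ (n - 1 - (j : ℕ))) := by
      ext i j
      rw [Matrix.mul_diagonal, Module.Basis.repr_reindex_apply]
      have h4 : z ^ (j : ℕ) * (m : 𝓞 K) ^ (n - 1 - (j : ℕ)) =
          ((m : ℤ) ^ (n - 1 - (j : ℕ))) • z ^ (j : ℕ) := by
        rw [zsmul_eq_mul]
        push_cast
        ring
      rw [h4, map_zsmul, Finsupp.smul_apply, smul_eq_mul]
      ring
    rw [h3, Matrix.det_mul, Matrix.det_diagonal] at h2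
    exact h2
  have hprod : (∏ j : Fin pb.dim, (m : ℤ) ^ (n - 1 - (j : ℕ))) ^ 2 = (m : ℤ) ^ (n * (n - 1)) := by
    rw [Fin.prod_univ_eq_prod_range (fun j => (m : ℤ) ^ (n - 1 - j)) pb.dim, hdim,
      Finset.prod_range_reflect (fun j => (m : ℤ) ^ j) n, Finset.prod_pow_eq_pow_sum, ← pow_mul,
      Finset.sum_range_id_mul_two]
  -- the size of the determinant
  set q : ℤ := ∏ j : Fin pb.dim, (m : ℤ) ^ (n - 1 - (j : ℕ)) with hq
  have hq0 : q ≠ 0 := by
    rw [hq]
    refine Finset.prod_ne_zero_iff.mpr fun j _ => ?_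
    exact pow_ne_zero _ (by exact_mod_cast (by omega : m ≠ 0))
  have hge : (Ideal.absNorm I : ℤ) ^ 2 ≤ (m : ℤ) ^ (n * (n - 1)) * M.det ^ 2 := by
    have h2 : (Ideal.absNorm I : ℤ) ≤ |M.det * q| :=
      Int.le_of_dvd (abs_pos.mpr (mul_ne_zero hne hq0)) ((dvd_abs _ _).mpr hdiv)
    calc (Ideal.absNorm I : ℤ) ^ 2 ≤ |M.det * q| ^ 2 := by gcongr
      _ = (m : ℤ) ^ (n * (n - 1)) * M.det ^ 2 := by rw [sq_abs, mul_pow, hprod]; ring
  have hge' : (Ideal.absNorm I : ℝ) ^ 2 ≤ (m : ℝ) ^ (n * (n - 1)) * (M.det : ℝ) ^ 2 := by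
    exact_mod_cast hge
  clear hdiv hge
  generalize M.det = dd at h1 hne hge'
  have h2 : (dd : ℝ) ^ 2 * |(discr K : ℝ)| = ‖algebraMap ℚ ℂ (Algebra.discr ℚ pb.basis)‖ := by
    rw [h1]
    have e1 : algebraMap ℚ ℂ ((dd : ℚ) ^ 2 * (discr K : ℚ)) =
        (((dd : ℝ) ^ 2 * (discr K : ℝ) : ℝ) : ℂ) := by
      rw [eq_ratCast]
      push_cast
      rfl
    rw [e1, Complex.norm_real, Real.norm_eq_abs, abs_mul, abs_pow, sq_abs]
  have h3 : ‖algebraMap ℚ ℂ (Algebra.discr ℚ pb.basis)‖ ≤ (2 * B) ^ (n * (n - 1)) := by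
    have hcard : Fintype.card (K →ₐ[ℚ] ℂ) = pb.dim := by
      rw [AlgHom.card, pb.finrank]
    let f : Fin pb.dim ≃ (K →ₐ[ℚ] ℂ) := (Fintype.equivFinOfCardEq hcard).symm
    rw [Algebra.discr_powerBasis_eq_prod ℚ ℂ pb f, norm_prod]
    have hconj : ∀ i, ‖f i pb.gen‖ ≤ B := by
      intro i
      rw [hgen]
      have := hw (InfinitePlace.mk ((f i : K →ₐ[ℚ] ℂ) : K →+* ℂ))
      rw [InfinitePlace.apply] at this
      exact this
    calc ∏ i : Fin pb.dim, ‖∏ j ∈ Finset.Ioi i, (f j pb.gen - f i pb.gen) ^ 2‖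
        ≤ ∏ i : Fin pb.dim, (2 * B) ^ (2 * (Finset.Ioi i).card) := by
          refine Finset.prod_le_prod (fun i _ => norm_nonneg _) fun i _ => ?_
          rw [norm_prod]
          calc ∏ j ∈ Finset.Ioi i, ‖(f j pb.gen - f i pb.gen) ^ 2‖
              ≤ ∏ j ∈ Finset.Ioi i, (2 * B) ^ 2 := by
                refine Finset.prod_le_prod (fun j _ => norm_nonneg _) fun j _ => ?_
                rw [norm_pow]
                have h3 : ‖f j pb.gen - f i pb.gen‖ ≤ 2 * B := by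
                  refine (norm_sub_le _ _).trans ?_
                  linarith [hconj i, hconj j]
                exact pow_le_pow_left₀ (norm_nonneg _) h3 2
            _ = (2 * B) ^ (2 * (Finset.Ioi i).card) := by
                rw [Finset.prod_const, ← pow_mul]
      _ = (2 * B) ^ (n * (n - 1)) := by
          rw [Finset.prod_pow_eq_pow_sum, Pool.Agent.TH847.LG.sum_card_Ioi, hdim]
  calc (Ideal.absNorm I : ℝ) ^ 2 * |(discr K : ℝ)|
      ≤ ((m : ℝ) ^ (n * (n - 1)) * (dd : ℝ) ^ 2) * |(discr K : ℝ)| := by gcongr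
    _ = (m : ℝ) ^ (n * (n - 1)) * ((dd : ℝ) ^ 2 * |(discr K : ℝ)|) := by ring
    _ ≤ (m : ℝ) ^ (n * (n - 1)) * (2 * B) ^ (n * (n - 1)) := by
        rw [h2]; gcongr

/-- The consequence for a generator of `Q ^ l * J ^ l`, `P J = (p)`. -/
theorem disc_sep {n : ℕ} (hn : Module.finrank ℚ K = n) (z : 𝓞 K)
    (hz : ℚ⟮(z : K)⟯ = ⊤) {B : ℝ} (hw : ∀ w : InfinitePlace K, w (z : K) ≤ B)
    {J : Ideal (𝓞 K)} {p l : ℕ} (hp : 1 ≤ p) (hpJ : ((p : ℕ) : 𝓞 K) ∈ J)
    (hJ : Ideal.absNorm J = p ^ (n - 1)) (hzJ : z ∈ J ^ l) :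
    ((p : ℝ) ^ l) ^ (2 * (n - 1) * (n - 1)) * |(discr K : ℝ)| ≤
      ((p : ℝ) ^ l) ^ (n * (n - 1)) * (2 * B) ^ (n * (n - 1)) := by
  have hJ0 : (J ^ l) ^ (n - 1) ≠ ⊥ := by
    intro h
    have h1 := congrArg Ideal.absNorm h
    rw [map_pow, map_pow, hJ, Ideal.absNorm_bot] at h1
    have : 0 < ((p ^ (n - 1)) ^ l) ^ (n - 1) := by positivity
    omega
  have h1 := disc_ideal hn z hz hw ((J ^ l) ^ (n - 1)) hJ0 (p ^ l) (Nat.one_le_pow _ _ hp) (by
    intro j hj
    have h2 : (J ^ l) ^ (n - 1) = (J ^ l) ^ j * (J ^ l) ^ (n - 1 - j) := by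
      rw [← pow_add]; congr 1; omega
    rw [h2]
    refine Ideal.mul_mem_mul (Ideal.pow_mem_pow hzJ j) (Ideal.pow_mem_pow ?_ _)
    push_cast
    exact Ideal.pow_mem_pow hpJ l)
  rw [map_pow, map_pow, hJ] at h1
  push_cast at h1
  have e1 : ((((p : ℝ) ^ (n - 1)) ^ l) ^ (n - 1)) ^ 2 =
      ((p : ℝ) ^ l) ^ (2 * (n - 1) * (n - 1)) := by
    rw [← pow_mul, ← pow_mul, ← pow_mul, ← pow_mul]
    congr 1
    ring
  rw [e1] at h1
  exact h1

end Pool.Agent.X9.EV
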