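import Pool.Agent.Y159.PT.Ev
import Pool.Agent.Y159.PT.Crit
import Pool.Agent.TH847.LG.Ram
import Pool.Agent.TH869.EVF.Fin1
import Pool.Agent.X9.EV.Idx

set_option autoImplicit false

/-! The bound of Ellenberg and Venkatesh for fields with many primes of degree one. -/

namespace Pool.Agent.X9.EV

open NumberField Finset Pool.Agent.TH847.LG Pool.Agent.TH869.EVF
open scoped nonZeroDivisors

/-- many primes of degree one in an interval `[a, b]` give a saving -/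
theorem tor_ev (n : ℕ) (hn2 : 2 ≤ n) (ε : ℝ) (hε : 0 < ε) : ∃ C : ℝ, 0 < C ∧ ∀ l : ℕ, 1 ≤ l →
    ∀ (K : Type) [Field K] [NumberField K], Module.finrank ℚ K = n → ∀ (a b : ℝ), 0 < a →
    ((2 * (150 * b) ^ l) ^ (n * (n - 1)) <
      ((discr K).natAbs : ℝ) * (a ^ l) ^ ((n - 1) * (n - 2))) →
    ∀ G : Finset ℕ, (∀ p ∈ G, p.Prime ∧ a ≤ p ∧ (p : ℝ) ≤ b ∧ ¬ p ∣ (discr K).natAbs ∧
      ∃ P : Ideal (𝓞 K), Ideal.absNorm P = p) →
    (Nat.card {c : ClassGroup (𝓞 K) // c ^ l = 1} : ℝ) * ((G.card : ℝ) + 1) ≤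
      C * ((discr K).natAbs : ℝ) ^ (1 / 2 + ε) := by
  obtain ⟨C, hC0, hC⟩ := Pool.Agent.Y159.PT.tor_sep n hn2 ε hε
  refine ⟨C, hC0, ?_⟩
  intro l hl K _ _ hn a b ha hab G hG
  refine hC l hl K hn G (fun p hp => ⟨(hG p hp).1, (hG p hp).2.2.2.2⟩) ?_
  intro p hpG q hqG hpq P J Q R hP hPJ hQ hQR z hz0 hz hw
  obtain ⟨hp, hap, hpb, hpD, -⟩ := hG p hpG
  obtain ⟨hq, haq, hqb, hqD, -⟩ := hG q hqG
  have hJ : Ideal.absNorm J = p ^ (n - 1) := by
    have h3 : Ideal.absNorm P * Ideal.absNorm J = p ^ n := by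
      rw [← map_mul, hPJ, Ideal.absNorm_span_natCast, RingOfIntegers.rank, hn]
    have h4 : p ^ n = p * p ^ (n - 1) := by
      rw [← pow_succ']; congr 1; omega
    rw [hP, h4] at h3
    exact Nat.eq_of_mul_eq_mul_left hp.pos h3
  have hQR' : ¬ Q ∣ R := fun h => hqD (dvd_discr_of_dvd hq hQ hQR h)
  have htop := gen_top_unram z Q R J hq hp hpq hl hQ hQR hQR' hJ hz
  have hpJ : ((p : ℕ) : 𝓞 K) ∈ J := by
    have h1 : Ideal.span {((p : ℕ) : 𝓞 K)} ≤ J := by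
      rw [← hPJ]; exact Ideal.mul_le_right
    exact h1 (Ideal.mem_span_singleton_self _)
  have hzJ : z ∈ J ^ l := Pool.Agent.Y159.PT.mem_pow_of_span hz
  have h1 := disc_sep hn z htop hw hp.one_lt.le hpJ hJ hzJ
  have hDK : |(discr K : ℝ)| = ((discr K).natAbs : ℝ) := by
    rw [Nat.cast_natAbs]; push_cast; rfl
  rw [hDK] at h1
  have hb : ((max p q : ℕ) : ℝ) ≤ b := by
    rw [Nat.cast_max]; exact max_le hpb hqb
  have hp0 : (0 : ℝ) < (p : ℝ) := by exact_mod_cast hp.pos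
  have e1 : 2 * (n - 1) * (n - 1) = n * (n - 1) + (n - 1) * (n - 2) := by
    obtain ⟨m, rfl⟩ : ∃ m, n = m + 2 := ⟨n - 2, by omega⟩
    have a1 : m + 2 - 1 = m + 1 := by omega
    have a2 : m + 2 - 2 = m := by omega
    rw [a1, a2]; ring
  rw [e1, pow_add, mul_assoc] at h1
  have h2 := le_of_mul_le_mul_left h1 (by positivity)
  have h3 : ((discr K).natAbs : ℝ) * (a ^ l) ^ ((n - 1) * (n - 2)) ≤
      ((p : ℝ) ^ l) ^ ((n - 1) * (n - 2)) * ((discr K).natAbs : ℝ) := by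
    rw [mul_comm]
    gcongr
  have h4 : (2 * (150 * ((max p q : ℕ) : ℝ)) ^ l) ^ (n * (n - 1)) ≤
      (2 * (150 * b) ^ l) ^ (n * (n - 1)) := by
    gcongr
  linarith

/-- the size condition -/
theorem size_cond (n l : ℕ) (hn : 3 ≤ n) (hl : 1 ≤ l) (δ : ℝ) (hδ0 : 0 < δ)
    (D : ℝ) (hD : 3 ≤ D) (E : ℝ) (hE : E = l * (n - 1) * (2 + δ * (n - 2))) (y : ℝ)
    (hy : y = D ^ (1 / E) / 301 ^ n) :
    (2 * (150 * y) ^ l) ^ (n * (n - 1)) < D * ((y ^ (1 - δ)) ^ l) ^ ((n - 1) * (n - 2)) := by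
  have hnr : (3 : ℝ) ≤ n := by exact_mod_cast hn
  have hlr : (1 : ℝ) ≤ l := by exact_mod_cast hl
  have hn1 : (0 : ℝ) < (n : ℝ) - 1 := by linarith
  have hs : 2 ≤ 2 + δ * ((n : ℝ) - 2) := by
    have : 0 ≤ δ * ((n : ℝ) - 2) := mul_nonneg hδ0.le (by linarith)
    linarith
  have hE0 : 0 < E := by rw [hE]; positivity
  have hD0 : 0 < D := by linarith
  have hDE : 0 < D ^ (1 / E) := Real.rpow_pos_of_pos hD0 _
  have hy0 : 0 < y := by rw [hy]; positivity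
  have hyE : y ^ E = D / ((301 : ℝ) ^ n) ^ E := by
    rw [hy, Real.div_rpow hDE.le (by positivity), ← Real.rpow_mul hD0.le,
      one_div_mul_cancel hE0.ne', Real.rpow_one]
  set k : ℕ := l * (n * (n - 1)) with hk
  have hk1 : 1 ≤ k := by
    have : 0 < n - 1 := by omega
    rw [hk]; exact Nat.succ_le_of_lt (by positivity)
  have h301 : (300 : ℝ) ^ k < ((301 : ℝ) ^ n) ^ E := by
    have h1 : (300 : ℝ) ^ k < 301 ^ k := pow_lt_pow_left₀ (by norm_num) (by norm_num) (by omega)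
    have h2 : (301 : ℝ) ^ k = ((301 : ℝ) ^ n) ^ ((l * (n - 1) : ℕ) : ℝ) := by
      rw [Real.rpow_natCast, ← pow_mul]
      congr 1
      rw [hk]; ring
    have h3 : ((301 : ℝ) ^ n) ^ ((l * (n - 1) : ℕ) : ℝ) ≤ ((301 : ℝ) ^ n) ^ E := by
      apply Real.rpow_le_rpow_of_exponent_le (one_le_pow₀ (by norm_num))
      rw [hE]
      push_cast [Nat.cast_sub (show 1 ≤ n by omega)]
      have h4 : (0 : ℝ) ≤ l * (n - 1) := by positivity
      nlinarith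
    rw [h2] at h1
    exact h1.trans_le h3
  have h1 : (2 * (150 * y) ^ l) ^ (n * (n - 1)) ≤ 300 ^ k * y ^ k := by
    have h2 : 2 * (150 * y) ^ l ≤ (300 * y) ^ l := by
      calc 2 * (150 * y) ^ l ≤ 2 ^ l * (150 * y) ^ l := by
            gcongr
            exact le_self_pow₀ (by norm_num) (by omega)
        _ = (300 * y) ^ l := by rw [← mul_pow]; ring
    calc (2 * (150 * y) ^ l) ^ (n * (n - 1)) ≤ ((300 * y) ^ l) ^ (n * (n - 1)) := by gcongr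
      _ = 300 ^ k * y ^ k := by rw [← pow_mul, ← hk, mul_pow]
  have h2 : ((y ^ (1 - δ)) ^ l) ^ ((n - 1) * (n - 2)) =
      y ^ ((1 - δ) * ((l : ℝ) * ((n - 1) * (n - 2)))) := by
    rw [← pow_mul, ← Real.rpow_natCast, ← Real.rpow_mul hy0.le]
    congr 1
    push_cast [Nat.cast_sub (show 1 ≤ n by omega), Nat.cast_sub (show 2 ≤ n by omega)]
    ring
  have h3 : y ^ k = y ^ E * y ^ ((1 - δ) * ((l : ℝ) * ((n - 1) * (n - 2)))) := by
    rw [← Real.rpow_add hy0, ← Real.rpow_natCast]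
    congr 1
    rw [hk, hE]
    push_cast [Nat.cast_sub (show 1 ≤ n by omega)]
    ring
  rw [h2]
  refine h1.trans_lt ?_
  rw [h3, ← mul_assoc]
  have h5 : 0 < y ^ ((1 - δ) * ((l : ℝ) * ((n - 1) * (n - 2)))) := Real.rpow_pos_of_pos hy0 _
  refine mul_lt_mul_of_pos_right ?_ h5
  have h6 : 0 < ((301 : ℝ) ^ n) ^ E := Real.rpow_pos_of_pos (by positivity) _
  rw [hyE, mul_div_assoc', div_lt_iff₀ h6, mul_comm]
  exact mul_lt_mul_of_pos_left h301 hD0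

/-- the exponent -/
theorem exp_ineq (n l : ℕ) (hn : 3 ≤ n) (hl : 1 ≤ l) (δ : ℝ) (hδ0 : 0 < δ)
    (E : ℝ) (hE : E = l * (n - 1) * (2 + δ * (n - 2))) :
    1 / (2 * (l : ℝ) * (n - 1)) - (1 - δ / 2) / E ≤ δ := by
  have hnr : (3 : ℝ) ≤ n := by exact_mod_cast hn
  have hlr : (1 : ℝ) ≤ l := by exact_mod_cast hl
  have hn1 : (0 : ℝ) < (n : ℝ) - 1 := by linarith
  have hs : 2 ≤ 2 + δ * ((n : ℝ) - 2) := by
    have : 0 ≤ δ * ((n : ℝ) - 2) := mul_nonneg hδ0.le (by linarith)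
    linarith
  have hl0 : (0 : ℝ) < l := by linarith
  have hs0 : 0 < 2 + δ * ((n : ℝ) - 2) := by linarith
  have e : 1 / (2 * (l : ℝ) * (n - 1)) - (1 - δ / 2) / E =
      (δ / (2 * l)) / (2 + δ * (n - 2)) := by
    rw [hE]
    field_simp
    ring
  rw [e, div_le_iff₀ hs0, div_le_iff₀ (by positivity)]
  have h1 : (1 : ℝ) ≤ (2 + δ * (n - 2)) * (2 * l) := by nlinarith
  calc δ = δ * 1 := by ring
    _ ≤ δ * ((2 + δ * (n - 2)) * (2 * l)) := by gcongr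
    _ = _ := by ring

end Pool.Agent.X9.EV
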